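import Mathlib

set_option autoImplicit false

open Finset

namespace Pool.Agent.Helper781.CycHouse

/-- The units of `ZMod N` that reduce to `c` modulo `Q`. -/
noncomputable def unitsOver {N Q : ℕ} [NeZero N] (hQN : Q ∣ N) (c : (ZMod Q)ˣ) :
    Finset (ZMod N)ˣ := by
  classical
  exact univ.filter fun u => ZMod.unitsMap hQN u = c

lemma mem_unitsOver {N Q : ℕ} [NeZero N] {hQN : Q ∣ N} {c : (ZMod Q)ˣ} {u : (ZMod N)ˣ} :
    u ∈ unitsOver hQN c ↔ ZMod.unitsMap hQN u = c := by
  classical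
  simp [unitsOver]

lemma pow_val_mul {N : ℕ} [NeZero N] {w : ℂ} (hw : w ^ N = 1) (x y : ZMod N) :
    w ^ (x * y).val = (w ^ x.val) ^ y.val := by
  rw [ZMod.val_mul, ← pow_eq_pow_mod _ hw, pow_mul]

/-- Bound for the sum of a root of unity over the units in a residue class. -/
lemma avg_prime {N Q : ℕ} [NeZero N] (hQN : Q ∣ N) (c : (ZMod Q)ˣ) {w : ℂ} (hw : w ^ N = 1)
    {p : ℕ} (hp : p.Prime) (hlt : Q.factorization p < (orderOf w).factorization p) :
    ((p : ℝ) - 1) * ‖∑ u ∈ unitsOver hQN c, w ^ (u : ZMod N).val‖ ≤ (unitsOver hQN c).card ∧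
    (2 ≤ (orderOf w).factorization p → ∑ u ∈ unitsOver hQN c, w ^ (u : ZMod N).val = 0) := by
  classical
  set n := orderOf w with hn
  set e := n.factorization p with he
  have hN0 : N ≠ 0 := NeZero.ne N
  have hnN : n ∣ N := orderOf_dvd_of_pow_eq_one hw
  have hn0 : n ≠ 0 := fun h => hN0 (Nat.eq_zero_of_zero_dvd (h ▸ hnN))
  have hQ0 : Q ≠ 0 := fun h => hN0 (Nat.eq_zero_of_zero_dvd (h ▸ hQN))
  obtain ⟨N', hN'⟩ : ∃ N', N' = N / p ^ N.factorization p := ⟨_, rfl⟩
  have hpN' : ¬ p ∣ N' := by rw [hN']; exact Nat.not_dvd_ordCompl hp hN0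
  have hNN' : N = p ^ N.factorization p * N' := by rw [hN']; exact (Nat.ordProj_mul_ordCompl_eq_self N p).symm
  have hN'0 : N' ≠ 0 := by rintro rfl; exact hpN' (dvd_zero _)
  have he1 : 1 ≤ e := by omega
  set t := N' * p ^ (e - 1) with ht
  have ht0 : t ≠ 0 := Nat.mul_ne_zero hN'0 (pow_ne_zero _ hp.ne_zero)
  have hpt : p * t = N' * p ^ e := by
    rw [ht, show e = (e - 1) + 1 by omega, pow_succ]; ring_nf
    rw [show 1 + (e - 1) - 1 = e - 1 by omega]
  have hnt : n ∣ p * t := by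
    rw [hpt]
    have h1 : n = p ^ e * (n / p ^ e) := (Nat.ordProj_mul_ordCompl_eq_self n p).symm
    have h2 : n / p ^ e ∣ N' := by rw [hN']; exact Nat.ordCompl_dvd_ordCompl_of_dvd hnN p
    rw [h1, mul_comm]
    exact Nat.mul_dvd_mul h2 dvd_rfl
  have hnt' : ¬ n ∣ t := by
    intro h
    have h1 : p ^ e ∣ t := (Nat.ordProj_dvd n p).trans h
    have h2 : t.factorization p = e - 1 := by
      rw [ht, Nat.factorization_mul hN'0 (pow_ne_zero _ hp.ne_zero), Finsupp.add_apply,
        Nat.factorization_eq_zero_of_not_dvd hpN', hp.factorization_pow, Finsupp.single_eq_same]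
      omega
    have h3 := (hp.pow_dvd_iff_le_factorization ht0).mp h1
    omega
  have hQt : Q ∣ t := by
    have h1 : Q = p ^ Q.factorization p * (Q / p ^ Q.factorization p) :=
      (Nat.ordProj_mul_ordCompl_eq_self Q p).symm
    have h2 : Q / p ^ Q.factorization p ∣ N' := by
      rw [hN']; exact Nat.ordCompl_dvd_ordCompl_of_dvd hQN p
    rw [h1, ht, mul_comm]
    exact Nat.mul_dvd_mul h2 (pow_dvd_pow _ (by omega))
  set ξ := w ^ t with hξ
  have hξp : ξ ^ p = 1 := by
    rw [hξ, ← pow_mul, mul_comm]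
    exact orderOf_dvd_iff_pow_eq_one.mp hnt
  have hξ1 : ξ ≠ 1 := by
    intro h
    exact hnt' (orderOf_dvd_of_pow_eq_one h)
  have : Fact p.Prime := ⟨hp⟩
  have hordξ : orderOf ξ = p := orderOf_eq_prime hξp hξ1
  have hpN : p ∣ N := by
    have : p ∣ n := (Nat.dvd_of_factorization_pos (by omega : n.factorization p ≠ 0))
    exact this.trans hnN
  have hζ : ∀ u : (ZMod N)ˣ, ξ ^ (u : ZMod N).val ≠ 1 := by
    intro u h
    have h1 : p ∣ (u : ZMod N).val := by rw [← hordξ]; exact orderOf_dvd_of_pow_eq_one h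
    have h2 : Nat.Coprime (u : ZMod N).val N := ZMod.val_coe_unit_coprime u
    have h3 := Nat.dvd_gcd h1 hpN
    rw [h2] at h3
    exact hp.one_lt.ne' (Nat.dvd_one.mp h3)
  set J := (range p).filter fun j => ¬ p ∣ 1 + j * t with hJ
  have hcop : ∀ j ∈ J, Nat.Coprime (1 + j * t) N := by
    intro j hj
    rw [hJ, mem_filter] at hj
    rw [Nat.coprime_comm]
    apply Nat.Coprime.symm
    by_contra hcon
    obtain ⟨q, hq, hq1, hq2⟩ := Nat.Prime.not_coprime_iff_dvd.mp hcon
    by_cases hqp : q = p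
    · subst hqp; exact hj.2 hq1
    · have h1 : q ∣ N' := by
        rw [hNN'] at hq2
        rcases (hq.dvd_mul).mp hq2 with h | h
        · exact absurd ((Nat.prime_dvd_prime_iff_eq hq hp).mp (hq.dvd_of_dvd_pow h)) hqp
        · exact h
      have h2 : q ∣ j * t := (h1.mul_right _).mul_left j
      have h3 : q ∣ 1 := (Nat.dvd_add_left h2).mp hq1
      exact hq.one_lt.ne' (Nat.dvd_one.mp h3)
  -- translation
  set S := ∑ u ∈ unitsOver hQN c, w ^ (u : ZMod N).val with hS
  have htrans : ∀ j ∈ J, S = ∑ u ∈ unitsOver hQN c,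
      w ^ (u : ZMod N).val * (ξ ^ (u : ZMod N).val) ^ j := by
    intro j hj
    set v : (ZMod N)ˣ := ZMod.unitOfCoprime (1 + j * t) (hcop j hj) with hv
    have hv1 : ZMod.unitsMap hQN v = 1 := by
      ext
      rw [ZMod.unitsMap_val, hv, ZMod.coe_unitOfCoprime, ZMod.cast_natCast hQN, Units.val_one]
      obtain ⟨d, hd⟩ := hQt
      rw [hd]; push_cast; simp
    rw [hS]
    refine sum_nbij' (fun u => v⁻¹ * u) (fun u => v * u) ?_ ?_ ?_ ?_ ?_
    · intro u hu
      rw [mem_unitsOver] at hu ⊢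
      rw [map_mul, map_inv, hv1, hu]; simp
    · intro u hu
      rw [mem_unitsOver] at hu ⊢
      rw [map_mul, hv1, hu, one_mul]
    · intro u _; simp
    · intro u _; simp
    · intro u _
      have h1 : (u : ZMod N) = (v : ZMod N) * ((v⁻¹ * u : (ZMod N)ˣ) : ZMod N) := by
        rw [← Units.val_mul]; simp
      conv_lhs => rw [h1]
      rw [pow_val_mul hw]
      have h2 : w ^ (v : ZMod N).val = w * ξ ^ j := by
        rw [hv, ZMod.coe_unitOfCoprime, ZMod.val_natCast, ← pow_eq_pow_mod _ hw, pow_add, pow_one,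
          hξ, ← pow_mul, mul_comm t j]
      rw [h2, mul_pow]
      rw [pow_right_comm ξ j _]
  have hmain : (J.card : ℂ) * S = ∑ u ∈ unitsOver hQN c,
      w ^ (u : ZMod N).val * ∑ j ∈ J, (ξ ^ (u : ZMod N).val) ^ j := by
    calc (J.card : ℂ) * S = ∑ j ∈ J, S := by rw [sum_const, nsmul_eq_mul]
      _ = ∑ j ∈ J, ∑ u ∈ unitsOver hQN c, w ^ (u : ZMod N).val * (ξ ^ (u : ZMod N).val) ^ j :=
          sum_congr rfl htrans
      _ = _ := by
          rw [sum_comm]
          refine sum_congr rfl fun u _ => ?_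
          rw [mul_sum]
  have hw1 : ‖w‖ = 1 := (pow_eq_one_iff_of_nonneg (norm_nonneg w) hN0).mp (by
    rw [← norm_pow, hw, norm_one])
  have hgeom : ∀ u : (ZMod N)ˣ, ∑ j ∈ range p, (ξ ^ (u : ZMod N).val) ^ j = 0 := by
    intro u
    rw [geom_sum_eq (hζ u)]
    have : (ξ ^ (u : ZMod N).val) ^ p = 1 := by
      rw [← pow_mul, mul_comm, pow_mul, hξp, one_pow]
    rw [this]; simp
  have hsplit : ∀ u : (ZMod N)ˣ, ∑ j ∈ J, (ξ ^ (u : ZMod N).val) ^ j =
      - ∑ j ∈ (range p).filter (fun j => p ∣ 1 + j * t), (ξ ^ (u : ZMod N).val) ^ j := by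
    intro u
    have := sum_filter_add_sum_filter_not (range p) (fun j => p ∣ 1 + j * t)
      (fun j => (ξ ^ (u : ZMod N).val) ^ j)
    rw [hgeom u] at this
    rw [hJ]
    exact eq_neg_of_add_eq_zero_right this
  have hcompl : ((range p).filter fun j => p ∣ 1 + j * t).card ≤ 1 := by
    rw [card_le_one]
    intro a ha b hb
    rw [mem_filter, mem_range] at ha hb
    have hpt : ¬ p ∣ t := by
      intro h
      have := (Nat.dvd_add_left (h.mul_left a)).mp ha.2
      exact hp.one_lt.ne' (Nat.dvd_one.mp this)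
    have h1 : (p : ℤ) ∣ ((a : ℤ) - b) * t := by
      have h2 : (p : ℤ) ∣ ((1 + a * t : ℕ) : ℤ) - ((1 + b * t : ℕ) : ℤ) :=
        dvd_sub (Int.natCast_dvd_natCast.mpr ha.2) (Int.natCast_dvd_natCast.mpr hb.2)
      have h3 : ((1 + a * t : ℕ) : ℤ) - ((1 + b * t : ℕ) : ℤ) = ((a : ℤ) - b) * t := by
        push_cast; ring
      rwa [h3] at h2
    have hpZ : Prime (p : ℤ) := Nat.prime_iff_prime_int.mp hp
    rcases hpZ.dvd_or_dvd h1 with h | h
    · have h4 : ((a : ℤ) - b).natAbs < p := by omega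
      have h5 := Int.eq_zero_of_abs_lt_dvd h (by
        have := Int.natCast_natAbs ((a : ℤ) - b)
        omega)
      omega
    · exact absurd (Int.natCast_dvd_natCast.mp h) hpt
  have hJcard : p ≤ J.card + 1 := by
    have : ((range p).filter fun j => p ∣ 1 + j * t).card + J.card = p := by
      rw [hJ, card_filter_add_card_filter_not, card_range]
    omega
  constructor
  · have h1 : ‖(J.card : ℂ) * S‖ ≤ (unitsOver hQN c).card := by
      rw [hmain]
      refine (norm_sum_le _ _).trans ?_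
      rw [card_eq_sum_ones, Nat.cast_sum]
      refine sum_le_sum fun u _ => ?_
      rw [norm_mul, norm_pow, hw1, one_pow, one_mul, hsplit u, norm_neg]
      refine (norm_sum_le _ _).trans ?_
      have hξn : ‖ξ‖ = 1 := by rw [hξ, norm_pow, hw1, one_pow]
      have h2 : ∑ j ∈ (range p).filter (fun j => p ∣ 1 + j * t), ‖(ξ ^ (u : ZMod N).val) ^ j‖ =
          ((range p).filter (fun j => p ∣ 1 + j * t)).card := by
        rw [card_eq_sum_ones, Nat.cast_sum]
        refine sum_congr rfl fun j _ => ?_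
        rw [norm_pow, norm_pow, hξn]; simp
      rw [h2]
      exact_mod_cast hcompl
    rw [norm_mul, Complex.norm_natCast] at h1
    have h2 : (p : ℝ) - 1 ≤ J.card := by
      have : (p : ℝ) ≤ J.card + 1 := by exact_mod_cast hJcard
      linarith
    exact (mul_le_mul_of_nonneg_right h2 (norm_nonneg S)).trans h1
  · intro he2
    have hpt : p ∣ t := by
      rw [ht]
      exact (dvd_pow_self p (by omega)).mul_left N'
    have hempty : (range p).filter (fun j => p ∣ 1 + j * t) = ∅ := by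
      rw [filter_eq_empty_iff]
      intro j _ h
      have := (Nat.dvd_add_left (hpt.mul_left j)).mp h
      exact hp.one_lt.ne' (Nat.dvd_one.mp this)
    have h1 : (J.card : ℂ) * S = 0 := by
      rw [hmain]
      refine sum_eq_zero fun u _ => ?_
      rw [hsplit u, hempty]; simp
    rcases mul_eq_zero.mp h1 with h | h
    · have : J.card = 0 := by exact_mod_cast h
      have := hp.two_le
      omega
    · exact h

/-- The averages tend to zero as the order tends to infinity. -/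
lemma avg_small (ε : ℝ) (hε : 0 < ε) (Q : ℕ) (hQ : 0 < Q) : ∃ C : ℕ, ∀ (N : ℕ) [NeZero N]
    (hQN : Q ∣ N) (c : (ZMod Q)ˣ) (w : ℂ), w ^ N = 1 → C < orderOf w →
    ‖∑ u ∈ unitsOver hQN c, w ^ (u : ZMod N).val‖ ≤ ε * (unitsOver hQN c).card := by
  obtain ⟨p1, hp1⟩ := exists_nat_gt (1 + 1 / ε)
  have hP0 : ∏ p ∈ (range p1).filter Nat.Prime, p ≠ 0 :=
    prod_ne_zero_iff.mpr fun p hp => (mem_filter.mp hp).2.ne_zero
  refine ⟨Q * ∏ p ∈ (range p1).filter Nat.Prime, p, ?_⟩
  intro N _ hQN c w hw hC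
  have hN0 : N ≠ 0 := NeZero.ne N
  have hnN : orderOf w ∣ N := orderOf_dvd_of_pow_eq_one hw
  have hn0 : orderOf w ≠ 0 := fun h => hN0 (Nat.eq_zero_of_zero_dvd (h ▸ hnN))
  have hC0 : Q * ∏ p ∈ (range p1).filter Nat.Prime, p ≠ 0 := Nat.mul_ne_zero hQ.ne' hP0
  have hnd : ¬ orderOf w ∣ Q * ∏ p ∈ (range p1).filter Nat.Prime, p := fun h =>
    absurd (Nat.le_of_dvd (Nat.pos_of_ne_zero hC0) h) (not_le.mpr hC)
  rw [← Nat.factorization_le_iff_dvd hn0 hC0, Finsupp.le_def] at hnd
  push Not at hnd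
  obtain ⟨p, hp⟩ := hnd
  have hpp : p.Prime := by
    by_contra h
    rw [Nat.factorization_eq_zero_of_not_prime _ h, Nat.factorization_eq_zero_of_not_prime _ h] at hp
    omega
  rw [Nat.factorization_mul hQ.ne' hP0, Finsupp.add_apply] at hp
  obtain ⟨h1, h2⟩ := avg_prime hQN c hw hpp (by omega)
  by_cases hlt : p < p1
  · have h3 : 1 ≤ (∏ p ∈ (range p1).filter Nat.Prime, p).factorization p := by
      have : p ∣ ∏ p ∈ (range p1).filter Nat.Prime, p :=
        dvd_prod_of_mem _ (mem_filter.mpr ⟨mem_range.mpr hlt, hpp⟩)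
      exact (hpp.dvd_iff_one_le_factorization hP0).mp this
    rw [h2 (by omega), norm_zero]
    positivity
  · have h4 : 1 / ε ≤ (p : ℝ) - 1 := by
      have : (p1 : ℝ) ≤ p := by exact_mod_cast not_lt.mp hlt
      linarith
    have h5 := (mul_le_mul_of_nonneg_right h4 (norm_nonneg _)).trans h1
    rw [div_mul_eq_mul_div, one_mul, div_le_iff₀ hε] at h5
    linarith


/-! ### Subsequences -/

lemma pigeon {α : Type*} (g : ℕ → α) (h : (Set.range g).Finite) :
    ∃ φ : ℕ → ℕ, StrictMono φ ∧ ∀ n, g (φ n) = g (φ 0) := by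
  have := h.to_subtype
  obtain ⟨y, hy⟩ := Finite.exists_infinite_fiber (Set.rangeFactorization g)
  have h2 : {n | g n = y.1}.Infinite := by
    rw [← Set.infinite_coe_iff]
    have h3 : {n | g n = y.1} = Set.rangeFactorization g ⁻¹' {y} := by
      ext n
      simp [Set.rangeFactorization, Subtype.ext_iff]
    rw [h3]
    exact hy
  obtain ⟨φ, hφ, hP⟩ := Filter.extraction_of_frequently_atTop
    (Nat.frequently_atTop_iff_infinite.mpr h2)
  exact ⟨φ, hφ, fun n => by rw [hP n, hP 0]⟩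

/-- Laurent monomials. -/
noncomputable def mono {k : ℕ} (z : Fin k → ℂ) (m : Fin k → ℤ) : ℂ := ∏ j, z j ^ m j

lemma mono_zero {k : ℕ} (z : Fin k → ℂ) : mono z 0 = 1 := by simp [mono]

lemma mono_add {k : ℕ} {z : Fin k → ℂ} (hz : ∀ j, z j ≠ 0) (m m' : Fin k → ℤ) :
    mono z (m + m') = mono z m * mono z m' := by
  unfold mono
  rw [← prod_mul_distrib]
  exact prod_congr rfl fun j _ => zpow_add₀ (hz j) _ _

lemma mono_smul {k : ℕ} (z : Fin k → ℂ) (c : ℤ) (m : Fin k → ℤ) :
    mono z (c • m) = mono z m ^ c := by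
  unfold mono
  rw [← Finset.prod_zpow]
  refine prod_congr rfl fun j _ => ?_
  rw [Pi.smul_apply, smul_eq_mul, mul_comm, zpow_mul]

lemma mono_pow {k : ℕ} {z : Fin k → ℂ} {N : ℕ} (hz : ∀ j, z j ^ N = 1) (m : Fin k → ℤ) :
    mono z m ^ N = 1 := by
  unfold mono
  rw [← prod_pow]
  refine prod_eq_one fun j _ => ?_
  rw [← zpow_natCast, ← zpow_mul, mul_comm, zpow_mul, zpow_natCast, hz, one_zpow]

lemma ne_zero_of_pow {N : ℕ} (hN : 0 < N) {x : ℂ} (h : x ^ N = 1) : x ≠ 0 := by
  rintro rfl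
  rw [zero_pow hN.ne'] at h
  exact zero_ne_one h

/-- The exponents whose monomials take finitely many values along the sequence. -/
noncomputable def finSub {k : ℕ} (z : ℕ → Fin k → ℂ) (hz : ∀ n j, z n j ≠ 0) :
    Submodule ℤ (Fin k → ℤ) where
  carrier := {m | (Set.range fun n => mono (z n) m).Finite}
  zero_mem' := by
    refine (Set.finite_singleton (1 : ℂ)).subset ?_
    rintro _ ⟨n, rfl⟩
    exact mono_zero _
  add_mem' := by
    intro m m' hm hm'
    refine (Set.Finite.image2 (fun x y => x * y) hm hm').subset ?_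
    rintro _ ⟨n, rfl⟩
    exact ⟨_, ⟨n, rfl⟩, _, ⟨n, rfl⟩, (mono_add (hz n) m m').symm⟩
  smul_mem' := by
    intro c m hm
    refine (hm.image (fun x => x ^ c)).subset ?_
    rintro _ ⟨n, rfl⟩
    exact ⟨_, ⟨n, rfl⟩, (mono_smul _ _ _).symm⟩

lemma finite_order_le (C : ℕ) : {x : ℂ | 0 < orderOf x ∧ orderOf x ≤ C}.Finite := by
  have h : {x : ℂ | 0 < orderOf x ∧ orderOf x ≤ C} ⊆
      ⋃ d ∈ Set.Icc 1 C, {x : ℂ | x ^ d = 1} := by
    rintro x ⟨h1, h2⟩
    rw [Set.mem_iUnion₂]
    exact ⟨orderOf x, ⟨h1, h2⟩, pow_orderOf_eq_one x⟩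
  refine Set.Finite.subset (Set.Finite.biUnion (Set.finite_Icc 1 C) fun d hd => ?_) h
  have : {x : ℂ | x ^ d = 1} ⊆ (Polynomial.nthRootsFinset d (1 : ℂ) : Set ℂ) := by
    intro x hx
    rw [mem_coe, Polynomial.mem_nthRootsFinset (by have := hd.1; omega)]
    exact hx
  exact (Finset.finite_toSet _).subset this

lemma exists_subseq {k : ℕ} (z : ℕ → Fin k → ℂ) (N : ℕ → ℕ) (hN : ∀ n, 0 < N n)
    (hz : ∀ n j, z n j ^ N n = 1) :
    ∃ φ : ℕ → ℕ, StrictMono φ ∧ ∃ L : Submodule ℤ (Fin k → ℤ),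
      (∀ m ∈ L, ∀ n, mono (z (φ n)) m = mono (z (φ 0)) m) ∧
      ∀ m ∉ L, ∀ C, ∀ᶠ n in Filter.atTop, C < orderOf (mono (z (φ n)) m) := by
  have hz0 : ∀ n j, z n j ≠ 0 := fun n j => ne_zero_of_pow (hN n) (hz n j)
  -- a maximal submodule
  obtain ⟨L, ⟨φ, hφ, rfl⟩, hmax⟩ := (wellFounded_gt :
      WellFounded ((· > ·) : Submodule ℤ (Fin k → ℤ) → Submodule ℤ (Fin k → ℤ) → Prop)).has_min
      {L | ∃ φ : ℕ → ℕ, StrictMono φ ∧ finSub (fun n => z (φ n)) (fun n => hz0 (φ n)) = L}
      ⟨_, id, strictMono_id, rfl⟩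
  set L := finSub (fun n => z (φ n)) (fun n => hz0 (φ n)) with hL
  -- orders tend to infinity outside
  have hout : ∀ m ∉ L, ∀ C, ∀ᶠ n in Filter.atTop, C < orderOf (mono (z (φ n)) m) := by
    intro m hm C
    by_contra hcon
    rw [Filter.not_eventually] at hcon
    obtain ⟨ψ, hψ, hP⟩ := Filter.extraction_of_frequently_atTop hcon
    have hle : L ≤ finSub (fun n => z (φ (ψ n))) (fun n => hz0 (φ (ψ n))) := by
      intro x hx
      refine Set.Finite.subset hx ?_
      rintro _ ⟨n, rfl⟩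
      exact ⟨ψ n, rfl⟩
    have hmem : m ∈ finSub (fun n => z (φ (ψ n))) (fun n => hz0 (φ (ψ n))) := by
      refine (finite_order_le C).subset ?_
      rintro _ ⟨n, rfl⟩
      refine ⟨?_, not_lt.mp (hP n)⟩
      rw [orderOf_pos_iff, isOfFinOrder_iff_pow_eq_one]
      exact ⟨N (φ (ψ n)), hN _, mono_pow (hz _) m⟩
    have hnot := hmax _ ⟨fun n => φ (ψ n), hφ.comp hψ, rfl⟩
    have heq : L = finSub (fun n => z (φ (ψ n))) (fun n => hz0 (φ (ψ n))) := by
      by_contra hne
      exact hnot (lt_of_le_of_ne hle hne)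
    rw [← heq] at hmem
    exact hm hmem
  -- make the values on generators constant
  obtain ⟨G, hG⟩ : L.FG := IsNoetherian.noetherian L
  have hrange : (Set.range fun (n : ℕ) (x : G) => mono (z (φ n)) (x : Fin k → ℤ)).Finite := by
    have h1 : (Set.pi Set.univ fun x : G =>
        Set.range fun n => mono (z (φ n)) (x : Fin k → ℤ)).Finite := by
      refine Set.Finite.pi fun x => ?_
      have : (x : Fin k → ℤ) ∈ L := by rw [← hG]; exact Submodule.subset_span x.2
      exact this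
    refine h1.subset ?_
    rintro _ ⟨n, rfl⟩ x _
    exact ⟨n, rfl⟩
  obtain ⟨ψ, hψ, hconst⟩ := pigeon _ hrange
  refine ⟨fun n => φ (ψ n), hφ.comp hψ, L, ?_, ?_⟩
  · intro m hm n
    rw [← hG] at hm
    induction hm using Submodule.span_induction with
    | mem x hx => exact congrFun (hconst n) ⟨x, hx⟩
    | zero => rw [mono_zero, mono_zero]
    | add x y _ _ hx hy => rw [mono_add (hz0 _), mono_add (hz0 _), hx, hy]
    | smul c x _ hx => rw [mono_smul, mono_smul, hx]
  · intro m hm C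
    exact hψ.tendsto_atTop.eventually (hout m hm C)


/-! ### Sums of a fixed number of roots of unity -/

lemma mono_sum {k : ℕ} {z : Fin k → ℂ} (hz : ∀ j, z j ≠ 0) {ι : Type*} (T : Finset ι)
    (f : ι → Fin k → ℤ) : mono z (∑ i ∈ T, f i) = ∏ i ∈ T, mono z (f i) := by
  classical
  induction T using Finset.induction_on with
  | empty => simp [mono_zero]
  | insert a T ha ih => rw [sum_insert ha, prod_insert ha, mono_add hz, ih]

lemma mono_single {k : ℕ} (z : Fin k → ℂ) (j : Fin k) : mono z (Pi.single j 1) = z j := by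
  unfold mono
  rw [prod_eq_single j]
  · simp
  · intro i _ hij
    rw [Pi.single_eq_of_ne hij, zpow_zero]
  · simp

/-- Exponent vector of a word. -/
def expo {k q : ℕ} (s : Fin q → Fin k) : Fin k → ℤ := ∑ i, Pi.single (s i) 1

lemma mono_expo {k q : ℕ} {z : Fin k → ℂ} (hz : ∀ j, z j ≠ 0) (s : Fin q → Fin k) :
    mono z (expo s) = ∏ i, z (s i) := by
  unfold expo
  rw [mono_sum hz]
  exact prod_congr rfl fun i _ => mono_single z (s i)

lemma expo_mem {k q : ℕ} (s : Fin q → Fin k) :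
    expo s ∈ Fintype.piFinset (fun _ : Fin k => Finset.Icc (0 : ℤ) q) := by
  rw [Fintype.mem_piFinset]
  intro j
  rw [Finset.mem_Icc]
  have h : expo s j = ∑ i, (if s i = j then (1 : ℤ) else 0) := by
    unfold expo
    rw [Finset.sum_apply]
    refine sum_congr rfl fun i _ => ?_
    rw [Pi.single_apply]
    simp only [eq_comm]
  rw [h]
  constructor
  · exact sum_nonneg fun i _ => by split_ifs <;> norm_num
  · calc ∑ i, (if s i = j then (1 : ℤ) else 0) ≤ ∑ _i : Fin q, 1 :=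
        sum_le_sum fun i _ => by split_ifs <;> norm_num
      _ = q := by simp

lemma card_piFinset_expo (k q : ℕ) :
    (Fintype.piFinset (fun _ : Fin k => Finset.Icc (0 : ℤ) q)).card = (q + 1) ^ k := by
  rw [Fintype.card_piFinset]
  simp

lemma pow_sum_eq {k q : ℕ} {z : Fin k → ℂ} (hz : ∀ j, z j ≠ 0) (b : ℕ) :
    (∑ j, z j ^ b) ^ q = ∑ s : Fin q → Fin k, mono z (expo s) ^ b := by
  rw [Fintype.sum_pow]
  refine sum_congr rfl fun s _ => ?_
  rw [mono_expo hz, prod_pow]

lemma conj_root {N : ℕ} (hN : 0 < N) {x : ℂ} (h : x ^ N = 1) : starRingEnd ℂ x = x⁻¹ := by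
  have h1 : ‖x‖ = 1 := (pow_eq_one_iff_of_nonneg (norm_nonneg x) hN.ne').mp (by
    rw [← norm_pow, h, norm_one])
  rw [Complex.inv_def, Complex.normSq_eq_norm_sq, h1]; simp

lemma normSq_expand {k q N : ℕ} (hN : 0 < N) {z : Fin k → ℂ} (hz : ∀ j, z j ^ N = 1) (b : ℕ) :
    ((‖∑ j, z j ^ b‖ ^ (2 * q) : ℝ) : ℂ) =
      ∑ s : Fin q → Fin k, ∑ s' : Fin q → Fin k, mono z (expo s - expo s') ^ b := by
  have hz0 : ∀ j, z j ≠ 0 := fun j => ne_zero_of_pow hN (hz j)
  have h1 : ((‖∑ j, z j ^ b‖ ^ (2 * q) : ℝ) : ℂ) =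
      (∑ j, z j ^ b) ^ q * starRingEnd ℂ ((∑ j, z j ^ b) ^ q) := by
    rw [Complex.mul_conj', norm_pow]; push_cast; ring
  rw [h1, pow_sum_eq hz0, map_sum, sum_mul_sum]
  refine sum_congr rfl fun s _ => sum_congr rfl fun s' _ => ?_
  have h2 : mono z (expo s) = mono z (expo s - expo s') * mono z (expo s') := by
    rw [← mono_add hz0]; simp
  have h3 : mono z (expo s') ≠ 0 := ne_zero_of_pow hN (mono_pow hz _)
  rw [map_pow, conj_root hN (mono_pow hz _), ← mul_pow, h2, mul_assoc, mul_inv_cancel₀ h3, mul_one]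

/-- Cauchy-Schwarz over the classes modulo `L`. -/
lemma cs_classes {k q : ℕ} (L : Submodule ℤ (Fin k → ℤ)) (y : (Fin q → Fin k) → ℂ) :
    ∃ R : ℂ, (R = ∑ s : Fin q → Fin k, ∑ s' : Fin q → Fin k,
        open Classical in if expo s - expo s' ∈ L then y s * starRingEnd ℂ (y s') else 0) ∧
      ‖∑ s, y s‖ ^ 2 ≤ ((q : ℝ) + 1) ^ k * R.re := by
  classical
  refine ⟨_, rfl, ?_⟩
  set π : (Fin q → Fin k) → (Fin k → ℤ) ⧸ L := fun s => Submodule.Quotient.mk (expo s) with hπ
  set 𝒞 := (univ : Finset (Fin q → Fin k)).image π with h𝒞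
  have hmaps : ∀ s ∈ (univ : Finset (Fin q → Fin k)), π s ∈ 𝒞 := fun s hs =>
    mem_image_of_mem π hs
  set Y : (Fin k → ℤ) ⧸ L → ℂ := fun c => ∑ s with π s = c, y s with hY
  have h1 : ∑ s, y s = ∑ c ∈ 𝒞, Y c := (sum_fiberwise_of_maps_to hmaps y).symm
  have hcard : 𝒞.card ≤ (q + 1) ^ k := by
    rw [← card_piFinset_expo k q]
    have h2 : 𝒞 ⊆ (Fintype.piFinset (fun _ : Fin k => Finset.Icc (0 : ℤ) q)).image
        (fun m => (Submodule.Quotient.mk m : (Fin k → ℤ) ⧸ L)) := by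
      intro c hc
      rw [h𝒞, mem_image] at hc
      obtain ⟨s, _, rfl⟩ := hc
      exact mem_image_of_mem _ (expo_mem s)
    exact (card_le_card h2).trans card_image_le
  have h2 : (∑ s : Fin q → Fin k, ∑ s' : Fin q → Fin k,
      if expo s - expo s' ∈ L then y s * starRingEnd ℂ (y s') else 0) =
      ((∑ c ∈ 𝒞, ‖Y c‖ ^ 2 : ℝ) : ℂ) := by
    push_cast
    rw [← sum_fiberwise_of_maps_to hmaps]
    refine sum_congr rfl fun c _ => ?_
    rw [← Complex.mul_conj']
    simp only [hY]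
    rw [sum_mul]
    refine sum_congr rfl fun s hs => ?_
    rw [mem_filter] at hs
    rw [map_sum, mul_sum, sum_filter]
    refine sum_congr rfl fun s' _ => ?_
    have h3 : (expo s - expo s' ∈ L) ↔ π s' = c := by
      rw [← hs.2, hπ]
      simp only
      rw [eq_comm, Submodule.Quotient.eq]
    simp only [h3]
  rw [h2, Complex.ofReal_re, h1]
  calc ‖∑ c ∈ 𝒞, Y c‖ ^ 2 ≤ (∑ c ∈ 𝒞, ‖Y c‖) ^ 2 := by
        gcongr; exact norm_sum_le _ _
    _ ≤ 𝒞.card * ∑ c ∈ 𝒞, ‖Y c‖ ^ 2 := sq_sum_le_card_mul_sum_sq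
    _ ≤ _ := by
        have : (𝒞.card : ℝ) ≤ ((q : ℝ) + 1) ^ k := by exact_mod_cast hcard
        exact mul_le_mul_of_nonneg_right this (by positivity)

/-- Houses of sums of a fixed number of roots of unity do not decrease strictly for ever. -/
theorem no_decreasing {k : ℕ} (z : ℕ → Fin k → ℂ) (N : ℕ → ℕ) (hN : ∀ n, 0 < N n)
    (hz : ∀ n j, z n j ^ N n = 1) (h : ℕ → ℝ) (hdec : StrictAnti h)
    (hU : ∀ n b, b.Coprime (N n) → ‖∑ j, z n j ^ b‖ ≤ h n)
    (hA : ∀ n, ∃ b, b.Coprime (N n) ∧ ‖∑ j, z n j ^ b‖ = h n) : False := by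
  classical
  obtain ⟨φ, hφ, L, hin, hout⟩ := exists_subseq z N hN hz
  have hz0 : ∀ n j, z n j ≠ 0 := fun n j => ne_zero_of_pow (hN n) (hz n j)
  set Q := N (φ 0) with hQ
  have hQ0 : 0 < Q := hN _
  obtain ⟨a, hac, ha⟩ := hA (φ 0)
  rw [← hQ] at hac
  have hh1 : 0 ≤ h (φ 1) := by
    obtain ⟨b, _, hb⟩ := hA (φ 1)
    rw [← hb]; exact norm_nonneg _
  have hlt : h (φ 1) < h (φ 0) := hdec (hφ zero_lt_one)
  have key : ∀ q : ℕ, (h (φ 0)) ^ (2 * q) ≤ ((q : ℝ) + 1) ^ k * (h (φ 1)) ^ (2 * q) := by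
    intro q
    set y : (Fin q → Fin k) → ℂ := fun s => mono (z (φ 0)) (expo s) ^ a with hy
    obtain ⟨R, hR, hCS⟩ := cs_classes L y
    have hsum : ∑ s, y s = (∑ j, z (φ 0) j ^ a) ^ q := (pow_sum_eq (hz0 _) a).symm
    have hl : ‖∑ s, y s‖ ^ 2 = (h (φ 0)) ^ (2 * q) := by
      rw [hsum, norm_pow, ha, ← pow_mul, mul_comm]
    rw [hl] at hCS
    refine hCS.trans (mul_le_mul_of_nonneg_left ?_ (by positivity))
    -- the averaging argument
    have hmain : ∀ ε : ℝ, 0 < ε → R.re ≤ (h (φ 1)) ^ (2 * q) +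
        ε * (Fintype.card (Fin q → Fin k) * Fintype.card (Fin q → Fin k)) := by
      intro ε hε
      obtain ⟨C, hC⟩ := avg_small ε hε Q hQ0
      obtain ⟨n, hn1, hn⟩ : ∃ n, 1 ≤ n ∧ ∀ s s' : Fin q → Fin k, expo s - expo s' ∉ L →
          C < orderOf (mono (z (φ n)) (expo s - expo s')) := by
        have hev : ∀ᶠ n in Filter.atTop, ∀ s s' : Fin q → Fin k, expo s - expo s' ∉ L →
            C < orderOf (mono (z (φ n)) (expo s - expo s')) := by
          rw [Filter.eventually_all]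
          intro s
          rw [Filter.eventually_all]
          intro s'
          by_cases hm : expo s - expo s' ∈ L
          · exact Filter.Eventually.of_forall fun _ h' => absurd hm h'
          · exact (hout _ hm C).mono fun n hn _ => hn
        obtain ⟨n, hn1, hn2⟩ := ((Filter.eventually_ge_atTop 1).and hev).exists
        exact ⟨n, hn1, hn2⟩
      set M := Q * N (φ n) with hM
      have hM0 : 0 < M := Nat.mul_pos hQ0 (hN _)
      have : NeZero M := ⟨hM0.ne'⟩
      have : NeZero Q := ⟨hQ0.ne'⟩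
      have hQM : Q ∣ M := dvd_mul_right _ _
      have hNM : N (φ n) ∣ M := dvd_mul_left _ _
      have hzM : ∀ j, z (φ n) j ^ M = 1 := by
        intro j
        rw [hM, mul_comm, pow_mul, hz, one_pow]
      set c : (ZMod Q)ˣ := ZMod.unitOfCoprime a hac with hc
      set 𝓑 := unitsOver hQM c with h𝓑
      have h𝓑ne : 0 < (𝓑.card : ℝ) := by
        obtain ⟨u, hu⟩ := ZMod.unitsMap_surjective hQM c
        have : u ∈ 𝓑 := mem_unitsOver.mpr hu
        exact_mod_cast card_pos.mpr ⟨u, this⟩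
      have hupper : ∑ u ∈ 𝓑, ‖∑ j, z (φ n) j ^ (u : ZMod M).val‖ ^ (2 * q) ≤
          𝓑.card * (h (φ 1)) ^ (2 * q) := by
        rw [← nsmul_eq_mul, ← sum_const]
        refine sum_le_sum fun u _ => ?_
        have h1 : ‖∑ j, z (φ n) j ^ (u : ZMod M).val‖ ≤ h (φ n) :=
          hU _ _ (Nat.Coprime.coprime_dvd_right hNM (ZMod.val_coe_unit_coprime u))
        have h2 : h (φ n) ≤ h (φ 1) := hdec.antitone (hφ.monotone hn1)
        exact pow_le_pow_left₀ (norm_nonneg _) (h1.trans h2) _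
      have hexp : ((∑ u ∈ 𝓑, ‖∑ j, z (φ n) j ^ (u : ZMod M).val‖ ^ (2 * q) : ℝ) : ℂ) =
          ∑ s : Fin q → Fin k, ∑ s' : Fin q → Fin k, ∑ u ∈ 𝓑,
            mono (z (φ n)) (expo s - expo s') ^ (u : ZMod M).val := by
        rw [Complex.ofReal_sum]
        simp_rw [normSq_expand hM0 hzM]
        rw [sum_comm]
        refine sum_congr rfl fun s _ => ?_
        rw [sum_comm]
      have hterm : ∀ s s' : Fin q → Fin k,
          ‖∑ u ∈ 𝓑, mono (z (φ n)) (expo s - expo s') ^ (u : ZMod M).val -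
            𝓑.card * (if expo s - expo s' ∈ L then y s * starRingEnd ℂ (y s') else 0)‖ ≤
          ε * 𝓑.card := by
        intro s s'
        have hw : mono (z (φ n)) (expo s - expo s') ^ M = 1 := mono_pow hzM _
        split_ifs with hm
        · have h1 : mono (z (φ n)) (expo s - expo s') = mono (z (φ 0)) (expo s - expo s') :=
            hin _ hm n
          have hwQ : mono (z (φ 0)) (expo s - expo s') ^ Q = 1 := mono_pow (hz _) _
          have h2 : ∀ u ∈ 𝓑, mono (z (φ n)) (expo s - expo s') ^ (u : ZMod M).val =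
              y s * starRingEnd ℂ (y s') := by
            intro u hu
            rw [h𝓑, mem_unitsOver] at hu
            have h3 : ((u : ZMod M).val : ZMod Q) = (a : ZMod Q) := by
              have h4 := congrArg Units.val hu
              rw [hc, ZMod.coe_unitOfCoprime, ZMod.unitsMap_val] at h4
              rw [← h4, ZMod.cast_eq_val]
            have h5 : (u : ZMod M).val % Q = a % Q := (ZMod.natCast_eq_natCast_iff' _ _ _).mp h3
            have h6 : mono (z (φ 0)) (expo s) =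
                mono (z (φ 0)) (expo s - expo s') * mono (z (φ 0)) (expo s') := by
              rw [← mono_add (hz0 _)]; simp
            have h7 : mono (z (φ 0)) (expo s') ≠ 0 :=
              ne_zero_of_pow hQ0 (mono_pow (hz _) _)
            rw [h1, pow_eq_pow_mod _ hwQ, h5, ← pow_eq_pow_mod _ hwQ]
            simp only [hy]
            rw [map_pow, conj_root hQ0 (mono_pow (hz _) _), ← mul_pow, h6, mul_assoc,
              mul_inv_cancel₀ h7, mul_one]
          rw [sum_congr rfl h2, sum_const, nsmul_eq_mul, sub_self, norm_zero]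
          positivity
        · rw [mul_zero, sub_zero]
          exact hC M hQM c _ hw (hn s s' hm)
      have hdiff : ‖((∑ u ∈ 𝓑, ‖∑ j, z (φ n) j ^ (u : ZMod M).val‖ ^ (2 * q) : ℝ) : ℂ) -
          𝓑.card * R‖ ≤ (Fintype.card (Fin q → Fin k) * Fintype.card (Fin q → Fin k)) *
            (ε * 𝓑.card) := by
        rw [hexp, hR, mul_sum, ← sum_sub_distrib]
        simp_rw [mul_sum, ← sum_sub_distrib]
        refine (norm_sum_le _ _).trans ?_
        calc ∑ s : Fin q → Fin k, ‖∑ s' : Fin q → Fin k, (∑ u ∈ 𝓑,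
              mono (z (φ n)) (expo s - expo s') ^ (u : ZMod M).val -
              𝓑.card * (if expo s - expo s' ∈ L then y s * starRingEnd ℂ (y s') else 0))‖
            ≤ ∑ _s : Fin q → Fin k, ∑ _s' : Fin q → Fin k, ε * (𝓑.card : ℝ) :=
              sum_le_sum fun s _ => (norm_sum_le _ _).trans (sum_le_sum fun s' _ => hterm s s')
          _ = _ := by
              rw [sum_const, sum_const, nsmul_eq_mul, nsmul_eq_mul, card_univ, mul_assoc]
      have hre := (Complex.abs_re_le_norm _).trans hdiff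
      rw [Complex.sub_re, Complex.ofReal_re] at hre
      have hre2 : ((𝓑.card : ℂ) * R).re = 𝓑.card * R.re := by simp
      rw [hre2, abs_le] at hre
      have h8 : (𝓑.card : ℝ) * R.re ≤ 𝓑.card * ((h (φ 1)) ^ (2 * q) +
          ε * (Fintype.card (Fin q → Fin k) * Fintype.card (Fin q → Fin k))) := by
        nlinarith [hre.1, hupper]
      exact le_of_mul_le_mul_left h8 h𝓑ne
    have hlim : Filter.Tendsto (fun ε : ℝ => (h (φ 1)) ^ (2 * q) +
        ε * ((Fintype.card (Fin q → Fin k) : ℝ) * Fintype.card (Fin q → Fin k)))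
        (nhdsWithin 0 (Set.Ioi 0)) (nhds ((h (φ 1)) ^ (2 * q) +
        0 * ((Fintype.card (Fin q → Fin k) : ℝ) * Fintype.card (Fin q → Fin k)))) := by
      refine tendsto_nhdsWithin_of_tendsto_nhds ?_
      exact Continuous.tendsto (by fun_prop) 0
    have := ge_of_tendsto hlim (by
      filter_upwards [self_mem_nhdsWithin] with ε hε
      exact hmain ε hε)
    simpa using this
  -- exponential beats polynomial
  rcases hh1.eq_or_lt with h0 | hpos
  · have := key 1
    rw [← h0] at this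
    have h1 : 0 < h (φ 0) := by linarith
    have h2 : 0 < h (φ 0) ^ (2 * 1) := by positivity
    norm_num at this
    nlinarith
  · set r := (h (φ 0) / h (φ 1)) ^ 2 with hr
    have hr1 : 1 < r := by
      rw [hr]
      exact one_lt_pow₀ ((one_lt_div hpos).mpr hlt) two_ne_zero
    have hq : ∀ q : ℕ, r ^ q ≤ ((q : ℝ) + 1) ^ k := by
      intro q
      rw [hr, ← pow_mul, div_pow, div_le_iff₀ (by positivity)]
      exact key q
    have hlim := tendsto_pow_const_div_const_pow_of_one_lt k hr1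
    have hlim2 := (Filter.tendsto_add_atTop_iff_nat 1).mpr hlim
    have hge : ∀ q : ℕ, 1 / r ≤ ((q + 1 : ℕ) : ℝ) ^ k / r ^ (q + 1) := by
      intro q
      rw [div_le_div_iff₀ (by linarith) (by positivity)]
      have := hq q
      push_cast
      rw [pow_succ]
      nlinarith
    have := ge_of_tendsto' hlim2 hge
    have h1 : 0 < 1 / r := by positivity
    linarith

end Pool.Agent.Helper781.CycHouse
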