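import Pool.Agent.Helper781.CycHouse.Loxton
import Pool.Agent.Helper781.CycHouse.Tuples

set_option autoImplicit false

open Polynomial Finset

namespace Pool.Agent.Helper781.CycHouse

/-! ### Houses of cyclotomic integers -/

/-- `h` is the house (largest absolute value of a conjugate) of a cyclotomic integer. The
conjugates of `f(ζ)`, `ζ` a primitive `N`-th root of unity, are the `f(z)` for all primitive
`N`-th roots of unity `z`. -/
def IsHouse (h : ℝ) : Prop :=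
  ∃ (N : ℕ) (f : ℤ[X]), 0 < N ∧ (∃ z : ℂ, IsPrimitiveRoot z N ∧ ‖aeval z f‖ = h) ∧
    ∀ z : ℂ, IsPrimitiveRoot z N → ‖aeval z f‖ ≤ h

lemma mean_le_sq {N : ℕ} (hN : 0 < N) (f : ℤ[X]) {h : ℝ}
    (hh : ∀ z : ℂ, IsPrimitiveRoot z N → ‖aeval z f‖ ≤ h) : mean N f ≤ h ^ 2 := by
  have hp : (0 : ℝ) < N.totient := by exact_mod_cast Nat.totient_pos.mpr hN
  unfold mean
  rw [div_le_iff₀ hp]
  calc ∑ z ∈ primitiveRoots N ℂ, ‖aeval z f‖ ^ 2 ≤ ∑ _z ∈ primitiveRoots N ℂ, h ^ 2 :=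
        sum_le_sum fun z hz => pow_le_pow_left₀ (norm_nonneg _) (hh z ((mem_prim hN).mp hz)) 2
    _ = h ^ 2 * N.totient := by rw [sum_const, prim_card, nsmul_eq_mul, mul_comm]

lemma pow_primitive {N M b : ℕ} (hNM : N ∣ M) (hM : 0 < M) {ζ : ℂ} (hζ : IsPrimitiveRoot ζ N)
    (hb : b.Coprime M) : IsPrimitiveRoot (ζ ^ b) N :=
  hζ.pow_of_coprime b (Nat.Coprime.coprime_dvd_right hNM hb)

/-- The conjugates of a sum of roots of unity. -/
lemma conj_sum {N M k : ℕ} (hN : 0 < N) (hM : 0 < M) (hNM : N ∣ M) {ζ : ℂ}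
    (hζ : IsPrimitiveRoot ζ N) (f : ℤ[X]) (y : Fin k → ℂ) (hy : ∀ j, y j ^ M = 1)
    (h : ∑ j, y j = aeval ζ f) {b : ℕ} (hb : b.Coprime M) :
    ∑ j, y j ^ b = aeval (ζ ^ b) f := by
  have hθ := Complex.isPrimitiveRoot_exp M hM.ne'
  set θ := Complex.exp (2 * Real.pi * Complex.I / M)
  have : NeZero M := ⟨hM.ne'⟩
  have hζM : ζ ^ M = 1 := by
    obtain ⟨d, rfl⟩ := hNM
    rw [pow_mul, hζ.pow_eq_one, one_pow]
  obtain ⟨α, _, hα⟩ := hθ.eq_pow_of_pow_eq_one hζM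
  have hβ : ∀ j, ∃ β, θ ^ β = y j := fun j => by
    obtain ⟨β, _, hβ⟩ := hθ.eq_pow_of_pow_eq_one (hy j)
    exact ⟨β, hβ⟩
  choose β hβ using hβ
  have h0 : aeval θ (∑ j, X ^ β j - f.comp (X ^ α) : ℤ[X]) = 0 := by
    rw [map_sub, map_sum, aeval_comp, map_pow, aeval_X, hα]
    simp only [map_pow, aeval_X, hβ]
    rw [h, sub_self]
  have h1 := aeval_conj hM _ hθ (hθ.pow_of_coprime b hb) h0
  rw [map_sub, map_sum, aeval_comp, map_pow, aeval_X, sub_eq_zero] at h1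
  simp only [map_pow, aeval_X] at h1
  rw [← hα, pow_right_comm θ α b, ← h1]
  refine sum_congr rfl fun j _ => ?_
  rw [← hβ j, pow_right_comm θ (β j) b]

/-- A common period of the members of a multiset of roots of unity. -/
lemma exists_period (s : Multiset ℂ) (hs : ∀ z ∈ s, ∃ m : ℕ, 0 < m ∧ z ^ m = 1) (N : ℕ)
    (hN : 0 < N) : ∃ M, 0 < M ∧ N ∣ M ∧ ∀ z ∈ s, z ^ M = 1 := by
  induction s using Multiset.induction_on with
  | empty => exact ⟨N, hN, dvd_rfl, by simp⟩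
  | cons a s ih =>
    obtain ⟨M, hM, hNM, h1⟩ := ih fun z hz => hs z (Multiset.mem_cons_of_mem hz)
    obtain ⟨m, hm, h2⟩ := hs a (Multiset.mem_cons_self a s)
    refine ⟨M * m, Nat.mul_pos hM hm, hNM.mul_right m, ?_⟩
    intro z hz
    rcases Multiset.mem_cons.mp hz with rfl | h
    · rw [mul_comm, pow_mul, h2, one_pow]
    · rw [pow_mul, h1 z h, one_pow]

/-- No strictly decreasing sequence of houses. -/
theorem no_decreasing_houses (h : ℕ → ℝ) (hdec : StrictAnti h) (hh : ∀ n, IsHouse (h n)) :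
    False := by
  -- the houses are non-negative
  have hnn : ∀ n, 0 ≤ h n := by
    intro n
    obtain ⟨N, f, _, ⟨z, _, hz⟩, _⟩ := hh n
    rw [← hz]; exact norm_nonneg _
  obtain ⟨k, hk⟩ := exists_nat_ge (2 * (h 0) ^ 2)
  obtain ⟨L, hL⟩ := loxton k
  have h1 : ∀ n, ∃ (N : ℕ) (f : ℤ[X]) (ζ : ℂ) (s : Multiset ℂ), 0 < N ∧ IsPrimitiveRoot ζ N ∧
      ‖aeval ζ f‖ = h n ∧ (∀ z : ℂ, IsPrimitiveRoot z N → ‖aeval z f‖ ≤ h n) ∧ s.card ≤ L ∧
      (∀ z ∈ s, ∃ m : ℕ, 0 < m ∧ z ^ m = 1) ∧ s.sum = aeval ζ f := by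
    intro n
    obtain ⟨N, f, hN, ⟨ζ, hζ, hζh⟩, hmax⟩ := hh n
    have hm : mean N f ≤ (k : ℝ) / 2 := by
      have h2 := mean_le_sq hN f hmax
      have h3 : h n ≤ h 0 := hdec.antitone (Nat.zero_le n)
      have h4 : h n ^ 2 ≤ h 0 ^ 2 := pow_le_pow_left₀ (hnn n) h3 2
      linarith
    obtain ⟨s, hs1, hs2, hs3⟩ := hL N hN f hm ζ hζ
    exact ⟨N, f, ζ, s, hN, hζ, hζh, hmax, hs1, hs2, hs3⟩
  choose N f ζ s hN hζ hζh hmax hs1 hs2 hs3 using h1
  obtain ⟨φ, hφ, hcard⟩ := pigeon (fun n => (s n).card) ((Set.finite_Icc 0 L).subset (by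
    rintro _ ⟨n, rfl⟩; exact ⟨Nat.zero_le _, hs1 n⟩))
  have h2 : ∀ n, ∃ (M : ℕ) (y : Fin (s (φ 0)).card → ℂ), 0 < M ∧ N (φ n) ∣ M ∧
      (∀ j, y j ^ M = 1) ∧ ∑ j, y j = aeval (ζ (φ n)) (f (φ n)) := by
    intro n
    obtain ⟨M, hM, hNM, hper⟩ := exists_period (s (φ n)) (hs2 _) (N (φ n)) (hN _)
    obtain ⟨l, hl⟩ : ∃ l : List ℂ, (l : Multiset ℂ) = s (φ n) := ⟨_, (s (φ n)).coe_toList⟩
    have hlen : l.length = (s (φ 0)).card := by
      rw [← Multiset.coe_card, hl]; exact hcard n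
    refine ⟨M, fun j => l.get (j.cast hlen.symm), hM, hNM, ?_, ?_⟩
    · intro j
      apply hper
      rw [← hl]
      exact List.get_mem _ _
    · rw [← hs3, ← hl, Multiset.sum_coe]
      conv_rhs => rw [← List.ofFn_get l]
      rw [List.sum_ofFn]
      exact Fintype.sum_equiv (finCongr hlen.symm) _ _ (fun j => rfl)
  choose M y hM hNM hy hsum using h2
  refine no_decreasing y M hM hy (fun n => h (φ n)) (hdec.comp_strictMono hφ) ?_ ?_
  · intro n b hb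
    rw [conj_sum (hN _) (hM n) (hNM n) (hζ _) _ (y n) (hy n) (hsum n) hb]
    exact hmax _ _ (pow_primitive (hNM n) (hM n) (hζ _) hb)
  · intro n
    refine ⟨1, Nat.coprime_one_left _, ?_⟩
    simp only [pow_one]
    rw [hsum n, hζh]

/-- The houses of cyclotomic integers do not accumulate from above. -/
theorem house_gap (a : ℝ) : ∃ ε > 0, ∀ h, IsHouse h → ¬ (a < h ∧ h < a + ε) := by
  by_contra hcon
  push Not at hcon
  -- build a strictly decreasing sequence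
  have hstep : ∀ x : {x : ℝ // a < x ∧ IsHouse x}, ∃ x' : {x : ℝ // a < x ∧ IsHouse x},
      x'.1 < x.1 := by
    rintro ⟨x, hx, _⟩
    obtain ⟨h, hh, h1, h2⟩ := hcon (x - a) (by linarith)
    exact ⟨⟨h, h1, hh⟩, by simp only; linarith⟩
  choose g hg using hstep
  obtain ⟨h0, hh0, h01, _⟩ := hcon 1 one_pos
  let seq : ℕ → {x : ℝ // a < x ∧ IsHouse x} := fun n => g^[n] ⟨h0, h01, hh0⟩
  have hanti : StrictAnti fun n => (seq n).1 := by
    refine strictAnti_nat_of_succ_lt fun n => ?_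
    simp only [seq, Function.iterate_succ_apply']
    exact hg _
  exact no_decreasing_houses _ hanti fun n => (seq n).2.2


/-! ### Perron-Frobenius eigenvalues -/

lemma int_of_field_aux {N : ℕ} (hN : 0 < N) (K : Type) [Field K] [NumberField K]
    [IsCyclotomicExtension {N} ℚ K] {ζ : ℂ} (hζ : IsPrimitiveRoot ζ N) (d : ℂ)
    (hd : IsIntegral ℤ d) (g : ℚ[X]) (hg : aeval ζ g = d) : ∃ f : ℤ[X], aeval ζ f = d := by
  have : NeZero N := ⟨hN.ne'⟩
  have hζK : IsPrimitiveRoot (IsCyclotomicExtension.zeta N ℚ K) N :=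
    IsCyclotomicExtension.zeta_spec N ℚ K
  have hirr : Irreducible (cyclotomic N ℚ) := cyclotomic.irreducible_rat hN
  obtain ⟨φ, hφ⟩ : ∃ φ : K →ₐ[ℚ] ℂ, φ (IsCyclotomicExtension.zeta N ℚ K) = ζ := by
    refine ⟨(hζK.embeddingsEquivPrimitiveRoots ℂ hirr).symm ⟨ζ, (mem_prim hN).mpr hζ⟩, ?_⟩
    rw [← hζK.embeddingsEquivPrimitiveRoots_apply_coe ℂ hirr]
    simp
  set y : K := aeval (IsCyclotomicExtension.zeta N ℚ K) g with hy
  have hφy : φ y = d := by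
    rw [hy, ← aeval_algHom_apply, hφ, hg]
  have hyint : IsIntegral ℤ y := by
    have h1 : IsIntegral ℤ (φ y) := by rw [hφy]; exact hd
    exact (isIntegral_algHom_iff (φ.restrictScalars ℤ) φ.injective).mp h1
  have hcl := IsCyclotomicExtension.Rat.isIntegralClosure_adjoin_singleton hζK
  obtain ⟨⟨x, hx⟩, hxy⟩ := hcl.isIntegral_iff.mp hyint
  rw [Algebra.adjoin_singleton_eq_range_aeval] at hx
  obtain ⟨f, hf⟩ := hx
  refine ⟨f, ?_⟩
  have h2 : (x : K) = y := hxy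
  have h3 : aeval (IsCyclotomicExtension.zeta N ℚ K) f = y := by rw [← h2, ← hf]; rfl
  have h4 := map_aeval_int (φ : K →+* ℂ) (IsCyclotomicExtension.zeta N ℚ K) f
  rw [← hφ]
  exact h4.symm.trans (by rw [h3]; exact hφy)

lemma int_of_field {N : ℕ} (hN : 0 < N) {ζ : ℂ} (hζ : IsPrimitiveRoot ζ N) (d : ℂ)
    (hd : IsIntegral ℤ d) (hm : d ∈ IntermediateField.adjoin ℚ {ζ}) :
    ∃ f : ℤ[X], aeval ζ f = d := by
  have : NeZero N := ⟨hN.ne'⟩
  have h1 : @IsCyclotomicExtension {N} ℚ (CyclotomicField N ℚ) _ _ DivisionRing.toRatAlgebra := by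
    convert! CyclotomicField.isCyclotomicExtension N ℚ
  have hζi : IsIntegral ℚ ζ := (hζ.isIntegral hN).tower_top
  rw [← IntermediateField.mem_toSubalgebra,
    IntermediateField.adjoin_simple_toSubalgebra_of_isAlgebraic hζi.isAlgebraic,
    Algebra.adjoin_singleton_eq_range_aeval] at hm
  obtain ⟨g, hg⟩ := hm
  exact int_of_field_aux hN (CyclotomicField N ℚ) hζ d hd g hg

end Pool.Agent.Helper781.CycHouse
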