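import Mathlib

set_option autoImplicit false

open Polynomial Finset

namespace Pool.Agent.Helper781.CycHouse

/-- Mean value of `|f(z)|^2` over the primitive `N`-th roots of unity `z`. -/
noncomputable def mean (N : ℕ) (f : ℤ[X]) : ℝ :=
  (∑ z ∈ primitiveRoots N ℂ, ‖aeval z f‖ ^ 2) / N.totient

lemma mem_prim {N : ℕ} (hN : 0 < N) {z : ℂ} : z ∈ primitiveRoots N ℂ ↔ IsPrimitiveRoot z N :=
  mem_primitiveRoots hN

lemma prim_card (N : ℕ) : (primitiveRoots N ℂ).card = N.totient := Complex.card_primitiveRoots N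

lemma prim_nonempty {N : ℕ} (hN : 0 < N) : (primitiveRoots N ℂ).Nonempty := by
  rw [← card_pos, prim_card]; exact Nat.totient_pos.mpr hN

lemma mean_nonneg (N : ℕ) (f : ℤ[X]) : 0 ≤ mean N f := by
  unfold mean; positivity

lemma aeval_conj {N : ℕ} (hN : 0 < N) (f : ℤ[X]) {z w : ℂ} (hz : IsPrimitiveRoot z N)
    (hw : IsPrimitiveRoot w N) (h : aeval z f = 0) : aeval w f = 0 := by
  have h1 := minpoly.isIntegrallyClosed_dvd (hz.isIntegral hN) h
  rw [← cyclotomic_eq_minpoly hz hN, cyclotomic_eq_minpoly hw hN] at h1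
  obtain ⟨g, rfl⟩ := h1
  simp

lemma mean_congr {N : ℕ} (hN : 0 < N) (f g : ℤ[X]) {z : ℂ} (hz : IsPrimitiveRoot z N)
    (h : aeval z f = aeval z g) : mean N f = mean N g := by
  unfold mean
  congr 1
  refine sum_congr rfl fun w hw => ?_
  rw [mem_prim hN] at hw
  have : aeval w (f - g) = 0 := aeval_conj hN (f - g) hz hw (by simp [h])
  rw [map_sub, sub_eq_zero] at this
  rw [this]

/-- The norm is a rational integer. -/
lemma exists_prod_eq_int {N : ℕ} (hN : 0 < N) (f : ℤ[X]) :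
    ∃ m : ℤ, ∏ z ∈ primitiveRoots N ℂ, aeval z f = (m : ℂ) := by
  refine ⟨resultant (cyclotomic N ℤ) f (cyclotomic N ℤ).natDegree f.natDegree, ?_⟩
  have h := resultant_eq_prod_eval (cyclotomic N ℂ) (f.map (Int.castRingHom ℂ)) f.natDegree
    natDegree_map_le (IsAlgClosed.splits _)
  have h2 : (cyclotomic N ℂ).leadingCoeff = 1 := (cyclotomic.monic N ℂ)
  have h3 : (cyclotomic N ℂ).roots = (primitiveRoots N ℂ).val := by
    have : NeZero N := ⟨hN.ne'⟩
    have : NeZero (N : ℂ) := ⟨by exact_mod_cast hN.ne'⟩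
    exact cyclotomic.roots_eq_primitiveRoots_val
  rw [h2, one_pow, one_mul, h3] at h
  have h4 : ∏ z ∈ primitiveRoots N ℂ, aeval z f =
      ((primitiveRoots N ℂ).val.map (f.map (Int.castRingHom ℂ)).eval).prod := by
    rw [Finset.prod]
    congr 1
    refine Multiset.map_congr rfl fun z _ => ?_
    rw [eval_map, aeval_def]; rfl
  rw [h4, ← h, ← map_cyclotomic_int N ℂ, natDegree_map_eq_of_injective
    (RingHom.injective_int (Int.castRingHom ℂ)), resultant_map_map]
  simp

lemma one_le_mean {N : ℕ} (hN : 0 < N) (f : ℤ[X]) {z : ℂ} (hz : IsPrimitiveRoot z N)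
    (h : aeval z f ≠ 0) : 1 ≤ mean N f := by
  have hne : ∀ w ∈ primitiveRoots N ℂ, aeval w f ≠ 0 := by
    intro w hw h0
    rw [mem_prim hN] at hw
    exact h (aeval_conj hN f hw hz h0)
  obtain ⟨m, hm⟩ := exists_prod_eq_int hN f
  have hm0 : m ≠ 0 := by
    rintro rfl
    rw [Int.cast_zero] at hm
    exact (prod_ne_zero_iff.mpr hne) hm
  have h1 : (1 : ℝ) ≤ ∏ w ∈ primitiveRoots N ℂ, ‖aeval w f‖ ^ 2 := by
    have : ∏ w ∈ primitiveRoots N ℂ, ‖aeval w f‖ ^ 2 = (m : ℝ) ^ 2 := by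
      rw [prod_pow, ← norm_prod, hm, Complex.norm_intCast, sq_abs]
    rw [this]
    have : (1 : ℤ) ≤ m ^ 2 := by
      have := sq_pos_of_ne_zero hm0
      omega
    exact_mod_cast this
  have h2 : (0 : ℝ) ≤ ∑ w ∈ primitiveRoots N ℂ, Real.log (‖aeval w f‖ ^ 2) := by
    rw [← Real.log_prod (fun w hw => by have := hne w hw; positivity)]
    exact Real.log_nonneg h1
  have h3 : ∑ w ∈ primitiveRoots N ℂ, Real.log (‖aeval w f‖ ^ 2) ≤
      ∑ w ∈ primitiveRoots N ℂ, (‖aeval w f‖ ^ 2 - 1) := by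
    refine sum_le_sum fun w hw => Real.log_le_sub_one_of_pos ?_
    have := hne w hw
    positivity
  rw [sum_sub_distrib, sum_const, prim_card] at h3
  have hp : (0 : ℝ) < N.totient := by exact_mod_cast Nat.totient_pos.mpr hN
  unfold mean
  rw [le_div_iff₀ hp]
  rw [nsmul_eq_mul, mul_one] at h3
  linarith

lemma eq_zero_of_mean_lt {N : ℕ} (hN : 0 < N) (f : ℤ[X]) {z : ℂ} (hz : IsPrimitiveRoot z N)
    (h : mean N f < 1) : aeval z f = 0 := by
  by_contra h0
  exact absurd (one_le_mean hN f hz h0) (not_le.mpr h)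


/-! ### Parseval -/

lemma parseval {p : ℕ} (hp : 0 < p) {ω : ℂ} (hω : IsPrimitiveRoot ω p) (α : ℕ → ℂ) :
    ∑ k ∈ range p, ‖∑ i ∈ range p, (ω ^ k) ^ i * α i‖ ^ 2 = p * ∑ i ∈ range p, ‖α i‖ ^ 2 := by
  have hn : ‖ω‖ = 1 := hω.norm'_eq_one hp.ne'
  have hwc : ω * starRingEnd ℂ ω = 1 := by
    rw [Complex.mul_conj, Complex.normSq_eq_norm_sq, hn]; simp
  have key : ∀ n ∈ range p, ∀ m ∈ range p, ∑ k ∈ range p, (ω ^ n * (starRingEnd ℂ ω) ^ m) ^ k
      = if n = m then (p : ℂ) else 0 := by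
    intro n hn' m hm'
    rw [mem_range] at hn' hm'
    split_ifs with h
    · subst h
      rw [← mul_pow, hwc]; simp
    · have hne : ω ^ n * (starRingEnd ℂ ω) ^ m ≠ 1 := by
        intro h1
        apply h
        have : ω ^ n = ω ^ m := by
          calc ω ^ n = ω ^ n * ((starRingEnd ℂ ω) ^ m * ω ^ m) := by
                rw [← mul_pow, mul_comm (starRingEnd ℂ ω), hwc]; simp
            _ = ω ^ m := by rw [← mul_assoc, h1, one_mul]
        exact hω.pow_inj hn' hm' this
      have h1 : (ω ^ n * (starRingEnd ℂ ω) ^ m) ^ p = 1 := by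
        rw [mul_pow, ← pow_mul, ← pow_mul, mul_comm n p, mul_comm m p, pow_mul, pow_mul,
          ← map_pow, hω.pow_eq_one]; simp
      rw [geom_sum_eq hne, h1]; simp
  have hc : ((∑ k ∈ range p, ‖∑ i ∈ range p, (ω ^ k) ^ i * α i‖ ^ 2 : ℝ) : ℂ) =
      ((p * ∑ i ∈ range p, ‖α i‖ ^ 2 : ℝ) : ℂ) := by
    push_cast
    calc ∑ k ∈ range p, (‖∑ i ∈ range p, (ω ^ k) ^ i * α i‖ : ℂ) ^ 2
        = ∑ k ∈ range p, ∑ n ∈ range p, ∑ m ∈ range p,
            α n * starRingEnd ℂ (α m) * (ω ^ n * (starRingEnd ℂ ω) ^ m) ^ k := by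
          refine sum_congr rfl fun k _ => ?_
          rw [← Complex.mul_conj', map_sum, sum_mul_sum]
          refine sum_congr rfl fun n _ => sum_congr rfl fun m _ => ?_
          simp only [map_mul, map_pow]
          rw [mul_pow, ← pow_mul, ← pow_mul, ← pow_mul, ← pow_mul, mul_comm n k, mul_comm m k]
          ring
      _ = ∑ n ∈ range p, ∑ m ∈ range p, α n * starRingEnd ℂ (α m) *
            ∑ k ∈ range p, (ω ^ n * (starRingEnd ℂ ω) ^ m) ^ k := by
          rw [sum_comm]
          refine sum_congr rfl fun n _ => ?_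
          rw [sum_comm]
          refine sum_congr rfl fun m _ => ?_
          rw [mul_sum]
      _ = ∑ n ∈ range p, α n * starRingEnd ℂ (α n) * p := by
          refine sum_congr rfl fun n hn => ?_
          rw [sum_congr rfl fun m hm => by rw [key n hn m hm]]
          simp only [mul_ite, mul_zero]
          rw [sum_ite_eq]
          simp [hn]
      _ = _ := by
          rw [mul_sum]
          refine sum_congr rfl fun n _ => ?_
          rw [Complex.mul_conj']; ring
  exact_mod_cast hc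

/-- The identity `n ∑ |α_i|^2 - |∑ α_i|^2 = (1/2) ∑ |α_i - α_j|^2`. -/
lemma var_identity (p : ℕ) (α : ℕ → ℂ) :
    (p : ℝ) * ∑ i ∈ range p, ‖α i‖ ^ 2 - ‖∑ i ∈ range p, α i‖ ^ 2 =
      (1 / 2) * ∑ i ∈ range p, ∑ j ∈ range p, ‖α i - α j‖ ^ 2 := by
  have h1 : ∀ i j : ℕ, ‖α i - α j‖ ^ 2 = ‖α i‖ ^ 2 + ‖α j‖ ^ 2 -
      2 * (α i * starRingEnd ℂ (α j)).re := by
    intro i j
    rw [← Complex.normSq_eq_norm_sq, ← Complex.normSq_eq_norm_sq, ← Complex.normSq_eq_norm_sq,
      Complex.normSq_sub]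
  have h2 : ‖∑ i ∈ range p, α i‖ ^ 2 = ∑ i ∈ range p, ∑ j ∈ range p,
      (α i * starRingEnd ℂ (α j)).re := by
    have : ((∑ i ∈ range p, α i) * starRingEnd ℂ (∑ i ∈ range p, α i)).re =
        ‖∑ i ∈ range p, α i‖ ^ 2 := by
      rw [Complex.mul_conj', ← Complex.ofReal_pow, Complex.ofReal_re]
    rw [← this, map_sum, sum_mul_sum, Complex.re_sum]
    refine sum_congr rfl fun i _ => ?_
    rw [Complex.re_sum]
  simp_rw [h1]
  rw [h2]
  simp only [sum_sub_distrib, sum_add_distrib, sum_const, card_range, nsmul_eq_mul, ← mul_sum]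
  ring

/-- The primitive roots of prime order together with one are all the powers. -/
lemma sum_prim_prime {p : ℕ} (hp : p.Prime) {ω : ℂ} (hω : IsPrimitiveRoot ω p) (g : ℂ → ℝ) :
    ∑ z ∈ primitiveRoots p ℂ, g z = ∑ k ∈ range p, g (ω ^ k) - g 1 := by
  have h0 : ∑ k ∈ range p, g (ω ^ k) = ∑ k ∈ (range p).erase 0, g (ω ^ k) + g (ω ^ 0) :=
    (sum_erase_add _ _ (mem_range.mpr hp.pos)).symm
  rw [h0, pow_zero, add_sub_cancel_right]
  have h1 : primitiveRoots p ℂ = ((range p).erase 0).image fun k => ω ^ k := by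
    symm
    apply eq_of_subset_of_card_le
    · intro z hz
      rw [mem_image] at hz
      obtain ⟨k, hk, rfl⟩ := hz
      rw [mem_erase, mem_range] at hk
      rw [mem_prim hp.pos]
      refine hω.pow_of_coprime k ?_
      exact (Nat.coprime_of_lt_prime hk.1 hk.2 hp).symm
    · rw [prim_card, card_image_of_injOn, card_erase_of_mem (mem_range.mpr hp.pos), card_range,
        Nat.totient_prime hp]
      intro a ha b hb hab
      rw [mem_coe, mem_erase, mem_range] at ha hb
      exact hω.pow_inj ha.2 hb.2 hab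
  rw [h1, sum_image]
  intro a ha b hb hab
  rw [mem_coe, mem_erase, mem_range] at ha hb
  exact hω.pow_inj ha.2 hb.2 hab


/-! ### Decomposition of a polynomial by residues of exponents -/

lemma exists_sections {p : ℕ} (hp : 0 < p) (f : ℤ[X]) :
    ∃ s : ℕ → ℤ[X], f = ∑ i ∈ range p, X ^ i * expand ℤ p (s i) := by
  induction f using Polynomial.induction_on' with
  | add f g hf hg =>
    obtain ⟨s, hs⟩ := hf
    obtain ⟨t, ht⟩ := hg
    refine ⟨fun i => s i + t i, ?_⟩
    simp only [map_add, mul_add, sum_add_distrib]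
    rw [← hs, ← ht]
  | monomial n a =>
    refine ⟨fun i => if i = n % p then monomial (n / p) a else 0, ?_⟩
    have h1 : ∀ i ∈ range p, X ^ i * expand ℤ p (if i = n % p then monomial (n / p) a else 0) =
        if i = n % p then monomial n a else 0 := by
      intro i _
      split_ifs with h
      · subst h
        rw [expand_monomial, X_pow_mul, monomial_mul_X_pow]
        rw [mul_comm (n / p) p, Nat.div_add_mod n p]
      · simp
    rw [sum_congr rfl h1, sum_ite_eq', if_pos (mem_range.mpr (Nat.mod_lt n hp))]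

lemma aeval_section (p i : ℕ) (s : ℤ[X]) (z : ℂ) :
    aeval z (X ^ i * expand ℤ p s) = z ^ i * aeval (z ^ p) s := by
  rw [map_mul, map_pow, aeval_X, expand_aeval]

lemma aeval_sections {p : ℕ} (s : ℕ → ℤ[X]) (z : ℂ) :
    aeval z (∑ i ∈ range p, X ^ i * expand ℤ p (s i)) =
      ∑ i ∈ range p, z ^ i * aeval (z ^ p) (s i) := by
  rw [map_sum]
  exact sum_congr rfl fun i _ => aeval_section p i (s i) z

lemma prim_of_pow {p m : ℕ} (hp : p.Prime) (hm : 0 < m) (hpm : p ∣ m) {x : ℂ}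
    (hx : IsPrimitiveRoot (x ^ p) m) : IsPrimitiveRoot x (p * m) := by
  rw [IsPrimitiveRoot.iff_orderOf] at hx ⊢
  rw [orderOf_pow' x hp.ne_zero] at hx
  rcases (Nat.dvd_prime hp).mp (Nat.gcd_dvd_right (orderOf x) p) with h | h
  · rw [h, Nat.div_one] at hx
    rw [hx, Nat.gcd_eq_right hpm] at h
    exact absurd h hp.one_lt.ne'
  · rw [h] at hx
    have h2 : p ∣ orderOf x := by rw [← h]; exact Nat.gcd_dvd_left _ _
    obtain ⟨c, hc⟩ := h2
    rw [hc, Nat.mul_div_cancel_left _ hp.pos] at hx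
    rw [hc, hx]

lemma sum_prim_dvd {p m : ℕ} (hp : p.Prime) (hm : 0 < m) (hpm : p ∣ m) {ω : ℂ}
    (hω : IsPrimitiveRoot ω p) (r : ℂ → ℂ) (hr : ∀ x, r x ^ p = x) (g : ℂ → ℝ) :
    ∑ z ∈ primitiveRoots (p * m) ℂ, g z =
      ∑ η ∈ primitiveRoots m ℂ, ∑ k ∈ range p, g (ω ^ k * r η) := by
  have hpow : ∀ k η, (ω ^ k * r η) ^ p = η := by
    intro k η
    rw [mul_pow, hr, ← pow_mul, mul_comm k p, pow_mul, hω.pow_eq_one, one_pow, one_mul]
  have hinj : Set.InjOn (fun x : ℂ × ℕ => ω ^ x.2 * r x.1)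
      ((primitiveRoots m ℂ ×ˢ range p : Finset (ℂ × ℕ)) : Set (ℂ × ℕ)) := by
    rintro ⟨η, k⟩ h1 ⟨η', k'⟩ h2 h3
    simp only [coe_product, Set.mem_prod, mem_coe, mem_range] at h1 h2 h3
    have h4 : η = η' := by rw [← hpow k η, ← hpow k' η', h3]
    subst h4
    have hη : η ≠ 0 := ((mem_prim hm).mp h1.1).ne_zero hm.ne'
    have hrη : r η ≠ 0 := by
      intro h0
      apply hη
      rw [← hr η, h0, zero_pow hp.ne_zero]
    have h5 := mul_right_cancel₀ hrη h3
    rw [hω.pow_inj h1.2 h2.2 h5]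
  have h1 : primitiveRoots (p * m) ℂ =
      (primitiveRoots m ℂ ×ˢ range p).image fun x => ω ^ x.2 * r x.1 := by
    symm
    apply eq_of_subset_of_card_le
    · intro z hz
      rw [mem_image] at hz
      obtain ⟨⟨η, k⟩, hk, rfl⟩ := hz
      rw [mem_product] at hk
      rw [mem_prim (Nat.mul_pos hp.pos hm)]
      refine prim_of_pow hp hm hpm ?_
      simp only
      rw [hpow]
      exact (mem_prim hm).mp hk.1
    · rw [prim_card, card_image_of_injOn hinj, card_product, prim_card, card_range,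
        Nat.totient_mul_of_prime_of_dvd hp hpm, mul_comm]
  rw [h1, sum_image hinj, sum_product]

lemma norm_root {p : ℕ} (hp : p ≠ 0) {x y : ℂ} (h : y ^ p = x) (hx : ‖x‖ = 1) : ‖y‖ = 1 := by
  rw [← h, norm_pow] at hx
  exact (pow_eq_one_iff_of_nonneg (norm_nonneg y) hp).mp hx

/-- Decomposition of the mean for `p ∣ m`. -/
lemma mean_dvd {p m : ℕ} (hp : p.Prime) (hm : 0 < m) (hpm : p ∣ m) (s : ℕ → ℤ[X]) :
    mean (p * m) (∑ i ∈ range p, X ^ i * expand ℤ p (s i)) = ∑ i ∈ range p, mean m (s i) := by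
  have hω := Complex.isPrimitiveRoot_exp p hp.ne_zero
  set ω := Complex.exp (2 * Real.pi * Complex.I / p)
  have hex : ∀ x : ℂ, ∃ y : ℂ, y ^ p = x := fun x => IsAlgClosed.exists_pow_nat_eq x hp.pos
  choose r hr using hex
  have h1 : ∑ z ∈ primitiveRoots (p * m) ℂ,
      ‖aeval z (∑ i ∈ range p, X ^ i * expand ℤ p (s i))‖ ^ 2 =
      p * ∑ i ∈ range p, ∑ η ∈ primitiveRoots m ℂ, ‖aeval η (s i)‖ ^ 2 := by
    rw [sum_prim_dvd hp hm hpm hω r hr]
    rw [sum_comm (s := range p), mul_sum]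
    refine sum_congr rfl fun η hη => ?_
    have hη1 : ‖η‖ = 1 := ((mem_prim hm).mp hη).norm'_eq_one hm.ne'
    have hr1 : ‖r η‖ = 1 := norm_root hp.ne_zero (hr η) hη1
    have h2 := parseval hp.pos hω (fun i => r η ^ i * aeval η (s i))
    have h3 : ∑ i ∈ range p, ‖r η ^ i * aeval η (s i)‖ ^ 2 = ∑ i ∈ range p, ‖aeval η (s i)‖ ^ 2 := by
      refine sum_congr rfl fun i _ => ?_
      rw [norm_mul, norm_pow, hr1, one_pow, one_mul]
    rw [h3] at h2
    rw [← h2]
    refine sum_congr rfl fun k _ => ?_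
    rw [aeval_sections]
    congr 2
    refine sum_congr rfl fun i _ => ?_
    rw [mul_pow _ _ p, hr, ← pow_mul, mul_comm k p, pow_mul, hω.pow_eq_one, one_pow, one_mul,
      mul_pow, mul_assoc]
  unfold mean
  rw [h1, Nat.totient_mul_of_prime_of_dvd hp hpm, ← sum_div]
  have hp0 : (p : ℝ) ≠ 0 := by exact_mod_cast hp.ne_zero
  push_cast
  rw [mul_div_mul_left _ _ hp0]

lemma sum_prim_coprime {p m : ℕ} (hp : 0 < p) (hm : 0 < m) (hpm : p.Coprime m) (g : ℂ → ℝ) :
    ∑ z ∈ primitiveRoots (p * m) ℂ, g z =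
      ∑ η ∈ primitiveRoots m ℂ, ∑ w ∈ primitiveRoots p ℂ, g (w * η) := by
  have hinj : Set.InjOn (fun x : ℂ × ℂ => x.2 * x.1)
      ((primitiveRoots m ℂ ×ˢ primitiveRoots p ℂ : Finset (ℂ × ℂ)) : Set (ℂ × ℂ)) := by
    rintro ⟨η, w⟩ h1 ⟨η', w'⟩ h2 h3
    simp only [coe_product, Set.mem_prod, mem_coe] at h1 h2 h3
    rw [mem_prim hm, mem_prim hp] at h1 h2
    have hη : η ≠ 0 := h1.1.ne_zero hm.ne'
    have hη' : η' ≠ 0 := h2.1.ne_zero hm.ne'
    have hw' : w' ≠ 0 := h2.2.ne_zero hp.ne'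
    have e : w / w' = η' / η := by
      rw [div_eq_div_iff hw' hη, h3, mul_comm]
    have e1 : (w / w') ^ p = 1 := by rw [div_pow, h1.2.pow_eq_one, h2.2.pow_eq_one, div_one]
    have e2 : (w / w') ^ m = 1 := by rw [e, div_pow, h1.1.pow_eq_one, h2.1.pow_eq_one, div_one]
    have e3 : w / w' = 1 := by
      have h5 : orderOf (w / w') ∣ Nat.gcd p m :=
        Nat.dvd_gcd (orderOf_dvd_of_pow_eq_one e1) (orderOf_dvd_of_pow_eq_one e2)
      rw [hpm, Nat.dvd_one] at h5
      exact orderOf_eq_one_iff.mp h5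
    have e4 : w = w' := (div_eq_one_iff_eq hw').mp e3
    subst e4
    have e5 := mul_left_cancel₀ hw' h3
    rw [e5]
  have h1 : primitiveRoots (p * m) ℂ =
      (primitiveRoots m ℂ ×ˢ primitiveRoots p ℂ).image fun x => x.2 * x.1 := by
    symm
    apply eq_of_subset_of_card_le
    · intro z hz
      rw [mem_image] at hz
      obtain ⟨⟨η, w⟩, hk, rfl⟩ := hz
      rw [mem_product, mem_prim hm, mem_prim hp] at hk
      rw [mem_prim (Nat.mul_pos hp hm), IsPrimitiveRoot.iff_orderOf]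
      simp only
      rw [(Commute.all w η).orderOf_mul_eq_mul_orderOf_of_coprime (by
        rw [← hk.1.eq_orderOf, ← hk.2.eq_orderOf]; exact hpm), ← hk.1.eq_orderOf,
        ← hk.2.eq_orderOf]
    · rw [prim_card, card_image_of_injOn hinj, card_product, prim_card, prim_card,
        Nat.totient_mul hpm, mul_comm]
  rw [h1, sum_image hinj, sum_product]

lemma aeval_coprime {p : ℕ} (s : ℕ → ℤ[X]) {w : ℂ} (hw : w ^ p = 1) (η : ℂ) :
    aeval (w * η) (∑ i ∈ range p, X ^ i * expand ℤ p (s i)) =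
      ∑ i ∈ range p, w ^ i * aeval η (X ^ i * expand ℤ p (s i)) := by
  rw [aeval_sections]
  refine sum_congr rfl fun i _ => ?_
  rw [aeval_section, mul_pow _ _ p, hw, one_mul, mul_pow, mul_assoc]

/-- Decomposition of the mean for `p` prime not dividing `m`. -/
lemma mean_coprime {p m : ℕ} (hp : p.Prime) (hm : 0 < m) (hpm : p.Coprime m) (s : ℕ → ℤ[X]) :
    ((p : ℝ) - 1) * mean (p * m) (∑ i ∈ range p, X ^ i * expand ℤ p (s i)) =
      (1 / 2) * ∑ i ∈ range p, ∑ j ∈ range p,
        mean m (X ^ i * expand ℤ p (s i) - X ^ j * expand ℤ p (s j)) := by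
  have hω := Complex.isPrimitiveRoot_exp p hp.ne_zero
  set ω := Complex.exp (2 * Real.pi * Complex.I / p)
  set a : ℕ → ℤ[X] := fun i => X ^ i * expand ℤ p (s i) with ha
  have h1 : ∑ z ∈ primitiveRoots (p * m) ℂ, ‖aeval z (∑ i ∈ range p, a i)‖ ^ 2 =
      (1 / 2) * ∑ i ∈ range p, ∑ j ∈ range p, ∑ η ∈ primitiveRoots m ℂ,
        ‖aeval η (a i - a j)‖ ^ 2 := by
    rw [sum_prim_coprime hp.pos hm hpm]
    have h2 : ∀ η ∈ primitiveRoots m ℂ, ∑ w ∈ primitiveRoots p ℂ,
        ‖aeval (w * η) (∑ i ∈ range p, a i)‖ ^ 2 =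
        (1 / 2) * ∑ i ∈ range p, ∑ j ∈ range p, ‖aeval η (a i - a j)‖ ^ 2 := by
      intro η _
      have h3 : ∑ w ∈ primitiveRoots p ℂ, ‖aeval (w * η) (∑ i ∈ range p, a i)‖ ^ 2 =
          ∑ w ∈ primitiveRoots p ℂ, ‖∑ i ∈ range p, w ^ i * aeval η (a i)‖ ^ 2 := by
        refine sum_congr rfl fun w hw => ?_
        rw [aeval_coprime s ((mem_prim hp.pos).mp hw).pow_eq_one]
      rw [h3, sum_prim_prime hp hω (fun w => ‖∑ i ∈ range p, w ^ i * aeval η (a i)‖ ^ 2),
        parseval hp.pos hω]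
      simp only [one_pow, one_mul]
      rw [var_identity]
      simp only [map_sub]
    rw [sum_congr rfl h2, ← mul_sum]
    congr 1
    rw [sum_comm]
    refine sum_congr rfl fun i _ => ?_
    rw [sum_comm]
  have hp1 : ((p - 1 : ℕ) : ℝ) = (p : ℝ) - 1 := by
    rw [Nat.cast_sub hp.one_lt.le]; simp
  have hpne : (p : ℝ) - 1 ≠ 0 := by
    have : (1 : ℝ) < p := by exact_mod_cast hp.one_lt
    linarith
  unfold mean
  rw [h1, Nat.totient_mul hpm, Nat.totient_prime hp]
  push_cast
  rw [hp1]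
  simp_rw [← sum_div]
  field_simp
  rfl


/-! ### Sums of few roots of unity -/

/-- `x` is a sum of at most `n` roots of unity. -/
def Len (n : ℕ) (x : ℂ) : Prop :=
  ∃ s : Multiset ℂ, s.card ≤ n ∧ (∀ z ∈ s, ∃ m : ℕ, 0 < m ∧ z ^ m = 1) ∧ s.sum = x

lemma Len.mono {n m : ℕ} (h : n ≤ m) {x : ℂ} (hx : Len n x) : Len m x := by
  obtain ⟨s, h1, h2, h3⟩ := hx
  exact ⟨s, h1.trans h, h2, h3⟩

lemma Len.zero (n : ℕ) : Len n 0 := ⟨0, by simp, by simp, by simp⟩

lemma Len.add {n m : ℕ} {x y : ℂ} (hx : Len n x) (hy : Len m y) : Len (n + m) (x + y) := by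
  obtain ⟨s, h1, h2, h3⟩ := hx
  obtain ⟨t, h4, h5, h6⟩ := hy
  refine ⟨s + t, by rw [Multiset.card_add]; omega, ?_, by rw [Multiset.sum_add, h3, h6]⟩
  intro z hz
  rcases Multiset.mem_add.mp hz with h | h
  · exact h2 z h
  · exact h5 z h

lemma Len.root_mul {n : ℕ} {x w : ℂ} (hx : Len n x) {k : ℕ} (hk : 0 < k) (hw : w ^ k = 1) :
    Len n (w * x) := by
  obtain ⟨s, h1, h2, h3⟩ := hx
  refine ⟨s.map (w * ·), by simpa using h1, ?_, by rw [Multiset.sum_map_mul_left]; simp [h3]⟩
  intro z hz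
  rw [Multiset.mem_map] at hz
  obtain ⟨y, hy, rfl⟩ := hz
  obtain ⟨m, hm, hm1⟩ := h2 y hy
  refine ⟨k * m, Nat.mul_pos hk hm, ?_⟩
  rw [mul_pow, pow_mul, hw, one_pow, one_mul, mul_comm k m, pow_mul, hm1, one_pow]

lemma Len.root {w : ℂ} {k : ℕ} (hk : 0 < k) (hw : w ^ k = 1) : Len 1 w :=
  ⟨{w}, by simp, by intro z hz; rw [Multiset.mem_singleton] at hz; subst hz; exact ⟨k, hk, hw⟩,
    by simp⟩

lemma Len.sum {ι : Type*} (T : Finset ι) (n : ℕ) (x : ι → ℂ) (h : ∀ i ∈ T, Len n (x i)) :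
    Len (T.card * n) (∑ i ∈ T, x i) := by
  classical
  induction T using Finset.induction_on with
  | empty => simpa using Len.zero 0
  | insert a T ha ih =>
    rw [sum_insert ha, card_insert_of_notMem ha]
    have h1 := h a (mem_insert_self _ _)
    have h2 := ih fun i hi => h i (mem_insert_of_mem hi)
    have := h1.add h2
    exact this.mono (by ring_nf; exact le_refl _)

lemma exists_len {N : ℕ} (hN : 0 < N) {z : ℂ} (hz : z ^ N = 1) (f : ℤ[X]) :
    ∃ n, Len n (aeval z f) := by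
  induction f using Polynomial.induction_on' with
  | add f g hf hg =>
    obtain ⟨n, hn⟩ := hf
    obtain ⟨m, hm⟩ := hg
    exact ⟨n + m, by rw [map_add]; exact hn.add hm⟩
  | monomial n a =>
    rw [aeval_monomial]
    have hzn : (z ^ n) ^ N = 1 := by rw [← pow_mul, mul_comm, pow_mul, hz, one_pow]
    have hnat : ∀ k : ℕ, Len k ((k : ℂ) * z ^ n) := by
      intro k
      have := Len.sum (range k) 1 (fun _ => z ^ n) (fun _ _ => Len.root hN hzn)
      simpa using this
    obtain ⟨k, rfl | rfl⟩ := Int.eq_nat_or_neg a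
    · exact ⟨k, by simpa using hnat k⟩
    · refine ⟨k, ?_⟩
      have := (hnat k).root_mul (w := -1) (k := 2) (by norm_num) (by norm_num)
      simpa using this

lemma map_aeval_int {A B : Type*} [CommRing A] [CommRing B] (φ : A →+* B) (x : A) (f : ℤ[X]) :
    φ (aeval x f) = aeval (φ x) f := by
  rw [aeval_def, aeval_def, hom_eval₂]
  congr 1
  exact RingHom.ext_int _ _

lemma finite_values_aux {N : ℕ} (hN : 0 < N) (B : ℝ) (K : Type) [Field K] [NumberField K]
    [IsCyclotomicExtension {N} ℚ K] :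
    {x : ℂ | ∃ z, IsPrimitiveRoot z N ∧ ∃ f : ℤ[X], mean N f ≤ B ∧ aeval z f = x}.Finite := by
  have : NeZero N := ⟨hN.ne'⟩
  have hζ : IsPrimitiveRoot (IsCyclotomicExtension.zeta N ℚ K) N :=
    IsCyclotomicExtension.zeta_spec N ℚ K
  have hfin := NumberField.Embeddings.finite_of_norm_le K ℂ (Real.sqrt (N.totient * B))
  refine (Set.Finite.biUnion (Set.finite_univ (α := K →ₐ[ℚ] ℂ))
    (fun φ _ => hfin.image φ)).subset ?_
  rintro x ⟨z, hz, f, hf, rfl⟩
  have hirr : Irreducible (cyclotomic N ℚ) := cyclotomic.irreducible_rat hN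
  obtain ⟨φ, hφ⟩ : ∃ φ : K →ₐ[ℚ] ℂ, φ (IsCyclotomicExtension.zeta N ℚ K) = z := by
    refine ⟨(hζ.embeddingsEquivPrimitiveRoots ℂ hirr).symm ⟨z, (mem_prim hN).mpr hz⟩, ?_⟩
    rw [← hζ.embeddingsEquivPrimitiveRoots_apply_coe ℂ hirr]
    simp
  rw [Set.mem_iUnion₂]
  refine ⟨φ, Set.mem_univ _, aeval (IsCyclotomicExtension.zeta N ℚ K) f, ⟨?_, ?_⟩, ?_⟩
  · have h := (hζ.isIntegral hN)
    exact .of_mem_of_fg _ (h.fg_adjoin_singleton) _ (aeval_mem_adjoin_singleton ℤ _)
  · intro ψ
    rw [map_aeval_int ψ]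
    have hψ : IsPrimitiveRoot (ψ (IsCyclotomicExtension.zeta N ℚ K)) N :=
      hζ.map_of_injective ψ.injective
    apply Real.le_sqrt_of_sq_le
    have hp : (0 : ℝ) < N.totient := by exact_mod_cast Nat.totient_pos.mpr hN
    have h2 : (∑ z ∈ primitiveRoots N ℂ, ‖aeval z f‖ ^ 2) ≤ N.totient * B := by
      unfold mean at hf
      rw [div_le_iff₀ hp] at hf
      linarith
    refine le_trans ?_ h2
    exact single_le_sum (f := fun z : ℂ => ‖aeval z f‖ ^ 2) (fun _ _ => by positivity)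
      ((mem_prim hN).mpr hψ)
  · rw [← hφ]
    exact map_aeval_int (φ : K →+* ℂ) _ f

/-- Finitely many values of bounded mean at a fixed level. -/
lemma finite_values {N : ℕ} (hN : 0 < N) (B : ℝ) :
    {x : ℂ | ∃ z, IsPrimitiveRoot z N ∧ ∃ f : ℤ[X], mean N f ≤ B ∧ aeval z f = x}.Finite := by
  have : NeZero N := ⟨hN.ne'⟩
  have h1 : @IsCyclotomicExtension {N} ℚ (CyclotomicField N ℚ) _ _ DivisionRing.toRatAlgebra := by
    convert! CyclotomicField.isCyclotomicExtension N ℚ
  exact finite_values_aux hN B (CyclotomicField N ℚ)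


/-! ### Loxton's theorem, existence form -/

lemma mean_neg (N : ℕ) (f : ℤ[X]) : mean N (-f) = mean N f := by
  unfold mean; simp

lemma mean_sub_comm (N : ℕ) (f g : ℤ[X]) : mean N (f - g) = mean N (g - f) := by
  rw [← neg_sub, mean_neg]

/-- Case `p ^ 2 ∣ N`. -/
lemma case_dvd {p m k L L' : ℕ} (hp : p.Prime) (hm : 0 < m) (hpm : p ∣ m)
    (hL : ∀ f : ℤ[X], mean m f ≤ (k : ℝ) / 2 → ∀ z, IsPrimitiveRoot z m → Len L (aeval z f))
    (hL' : ∀ f : ℤ[X], mean m f ≤ ((k + 1 : ℕ) : ℝ) / 2 → ∀ z, IsPrimitiveRoot z m →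
      Len L' (aeval z f)) (hLL : (k + 1) * L ≤ L')
    (f : ℤ[X]) (hf : mean (p * m) f ≤ ((k + 1 : ℕ) : ℝ) / 2) (z : ℂ)
    (hz : IsPrimitiveRoot z (p * m)) : Len L' (aeval z f) := by
  classical
  obtain ⟨s, rfl⟩ := exists_sections hp.pos f
  rw [mean_dvd hp hm hpm] at hf
  have hzN : z ^ (p * m) = 1 := hz.pow_eq_one
  have hzp : IsPrimitiveRoot (z ^ p) m := hz.pow (Nat.mul_pos hp.pos hm) rfl
  rw [aeval_sections]
  set T := (range p).filter fun i => aeval (z ^ p) (s i) ≠ 0 with hT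
  have hsum : ∑ i ∈ range p, z ^ i * aeval (z ^ p) (s i) =
      ∑ i ∈ T, z ^ i * aeval (z ^ p) (s i) := by
    symm
    apply sum_subset (filter_subset _ _)
    intro i hi hi'
    rw [mem_filter, not_and, not_not] at hi'
    rw [hi' hi, mul_zero]
  rw [hsum]
  have hge : ∑ i ∈ T, mean m (s i) ≤ ∑ i ∈ range p, mean m (s i) :=
    sum_le_sum_of_subset_of_nonneg (filter_subset _ _) fun _ _ _ => mean_nonneg _ _
  have hone : ∀ i ∈ T, 1 ≤ mean m (s i) := by
    intro i hi
    rw [hT, mem_filter] at hi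
    exact one_le_mean hm _ hzp hi.2
  have hcard : (T.card : ℝ) ≤ ∑ i ∈ T, mean m (s i) := by
    have := card_nsmul_le_sum T (fun i => mean m (s i)) 1 hone
    simpa using this
  have hroot : ∀ i : ℕ, (z ^ i) ^ (p * m) = 1 := by
    intro i
    rw [← pow_mul, mul_comm, pow_mul, hzN, one_pow]
  rcases Nat.lt_or_ge T.card 2 with h2 | h2
  · rcases Nat.lt_or_ge T.card 1 with h1 | h1
    · have : T = ∅ := card_eq_zero.mp (by omega)
      rw [this, sum_empty]
      exact Len.zero _
    · obtain ⟨i, hi⟩ := card_eq_one.mp (show T.card = 1 by omega)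
      rw [hi, sum_singleton]
      rw [hi, sum_singleton] at hge
      exact (hL' (s i) (hge.trans hf) _ hzp).root_mul (Nat.mul_pos hp.pos hm) (hroot i)
  · have hk : T.card ≤ k + 1 := by
      have h3 : (T.card : ℝ) ≤ ((k + 1 : ℕ) : ℝ) / 2 := hcard.trans (hge.trans hf)
      have h4 : (T.card : ℝ) ≤ ((k + 1 : ℕ) : ℝ) := by
        have : (0 : ℝ) ≤ ((k + 1 : ℕ) : ℝ) := Nat.cast_nonneg _
        linarith
      exact_mod_cast h4
    have hlen : ∀ i ∈ T, Len L (z ^ i * aeval (z ^ p) (s i)) := by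
      intro i hi
      refine Len.root_mul (hL (s i) ?_ _ hzp) (Nat.mul_pos hp.pos hm) (hroot i)
      have h5 : mean m (s i) + ∑ j ∈ T.erase i, mean m (s j) = ∑ j ∈ T, mean m (s j) :=
        add_sum_erase T (fun j => mean m (s j)) hi
      have h6 : ((T.erase i).card : ℝ) ≤ ∑ j ∈ T.erase i, mean m (s j) := by
        have := card_nsmul_le_sum (T.erase i) (fun i => mean m (s i)) 1
          (fun j hj => hone j (mem_of_mem_erase hj))
        simpa using this
      rw [card_erase_of_mem hi] at h6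
      have h7 : (1 : ℝ) ≤ ((T.card - 1 : ℕ) : ℝ) := by exact_mod_cast (by omega : 1 ≤ T.card - 1)
      push_cast at hf
      linarith
    refine (Len.sum T L _ hlen).mono (le_trans ?_ hLL)
    exact Nat.mul_le_mul_right L hk

/-- Case of a large prime dividing `N` exactly once. -/
lemma case_coprime {p m k L L' : ℕ} (hp : p.Prime) (hm : 0 < m) (hpm : p.Coprime m)
    (hpk : (k + 1) ^ 2 + (k + 1) + 1 ≤ p)
    (hL : ∀ f : ℤ[X], mean m f ≤ (k : ℝ) / 2 → ∀ z, IsPrimitiveRoot z m → Len L (aeval z f))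
    (hL' : ∀ f : ℤ[X], mean m f ≤ ((k + 1 : ℕ) : ℝ) / 2 → ∀ z, IsPrimitiveRoot z m →
      Len L' (aeval z f)) (hLL : (k + 1) * L ≤ L')
    (f : ℤ[X]) (hf : mean (p * m) f ≤ ((k + 1 : ℕ) : ℝ) / 2) (z : ℂ)
    (hz : IsPrimitiveRoot z (p * m)) : Len L' (aeval z f) := by
  classical
  -- write `z` as a product
  obtain ⟨w, η, hw, hη, rfl⟩ : ∃ w η : ℂ, IsPrimitiveRoot w p ∧ IsPrimitiveRoot η m ∧ w * η = z := by
    have h1 := sum_prim_coprime hp.pos hm hpm (fun x => if x = z then 1 else 0)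
    rw [sum_ite_eq', if_pos ((mem_prim (Nat.mul_pos hp.pos hm)).mpr hz)] at h1
    by_contra hcon
    push Not at hcon
    have h2 : ∑ η ∈ primitiveRoots m ℂ, ∑ w ∈ primitiveRoots p ℂ,
        (if w * η = z then (1 : ℝ) else 0) = 0 := by
      refine sum_eq_zero fun η hη => sum_eq_zero fun w hw => ?_
      rw [if_neg (hcon w η ((mem_prim hp.pos).mp hw) ((mem_prim hm).mp hη))]
    rw [h2] at h1
    exact one_ne_zero h1
  obtain ⟨s, rfl⟩ := exists_sections hp.pos f
  have hid := mean_coprime hp hm hpm s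
  rw [aeval_coprime s hw.pow_eq_one η]
  generalize hF : mean (p * m) (∑ i ∈ range p, X ^ i * expand ℤ p (s i)) = μ at hf hid
  obtain ⟨a, ha⟩ : ∃ a : ℕ → ℤ[X], ∀ i, X ^ i * expand ℤ p (s i) = a i := ⟨_, fun i => rfl⟩
  simp only [ha] at hid ⊢
  set v : ℕ → ℂ := fun i => aeval η (a i) with hv
  have hp0 : (range p).Nonempty := ⟨0, mem_range.mpr hp.pos⟩
  obtain ⟨i0, hi0, hmax⟩ := exists_max_image (range p)
    (fun i => ((range p).filter fun j => v j = v i).card) hp0
  set T := (range p).filter fun j => v j ≠ v i0 with hT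
  set T' := (range p).filter fun j => v j = v i0 with hT'
  have hcardTT : T'.card + T.card = p := by
    rw [hT, hT', card_filter_add_card_filter_not]
    exact card_range p
  have hwsum : ∑ i ∈ range p, w ^ i = 0 := hw.geom_sum_eq_zero hp.one_lt
  have hsum : ∑ i ∈ range p, w ^ i * v i = ∑ i ∈ T, w ^ i * aeval η (a i - a i0) := by
    have h1 : ∑ i ∈ range p, w ^ i * v i = ∑ i ∈ range p, w ^ i * aeval η (a i - a i0) := by
      have : ∑ i ∈ range p, w ^ i * aeval η (a i - a i0) =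
          ∑ i ∈ range p, w ^ i * v i - (∑ i ∈ range p, w ^ i) * v i0 := by
        rw [sum_mul, ← sum_sub_distrib]
        refine sum_congr rfl fun i _ => ?_
        simp only [hv, map_sub]; ring
      rw [this, hwsum]; ring
    rw [h1]
    symm
    apply sum_subset (filter_subset _ _)
    intro i hi hi'
    rw [mem_filter, not_and, not_not] at hi'
    rw [map_sub, show aeval η (a i) = aeval η (a i0) from hi' hi, sub_self, mul_zero]
  have hsum' : ∑ i ∈ range p, w ^ i * aeval η (a i) = ∑ i ∈ T, w ^ i * aeval η (a i - a i0) := hsum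
  rw [hsum']
  -- lower bounds
  have hone : ∀ i j, v i ≠ v j → 1 ≤ mean m (a i - a j) := by
    intro i j hij
    refine one_le_mean hm _ hη ?_
    rw [map_sub]
    exact sub_ne_zero.mpr hij
  have hα : (p : ℝ) * T.card ≤ ∑ i ∈ range p, ∑ j ∈ range p, mean m (a i - a j) := by
    have h1 : ∀ i ∈ range p, (T.card : ℝ) ≤ ∑ j ∈ range p, mean m (a i - a j) := by
      intro i hi
      have h2 : (((range p).filter fun j => v j ≠ v i).card : ℝ) ≤
          ∑ j ∈ (range p).filter (fun j => v j ≠ v i), mean m (a i - a j) := by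
        have := card_nsmul_le_sum ((range p).filter fun j => v j ≠ v i)
          (fun j => mean m (a i - a j)) 1 (fun j hj => by
            rw [mem_filter] at hj
            exact hone i j (Ne.symm hj.2))
        simpa using this
      have h3 : ∑ j ∈ (range p).filter (fun j => v j ≠ v i), mean m (a i - a j) ≤
          ∑ j ∈ range p, mean m (a i - a j) :=
        sum_le_sum_of_subset_of_nonneg (filter_subset _ _) fun _ _ _ => mean_nonneg _ _
      have h4 := hmax i hi
      have h5 : ((range p).filter fun j => v j = v i).card +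
          ((range p).filter fun j => v j ≠ v i).card = p := by
        rw [card_filter_add_card_filter_not]
        exact card_range p
      have h6 : T.card ≤ ((range p).filter fun j => v j ≠ v i).card := by
        omega
      have h7 : (T.card : ℝ) ≤ ((range p).filter fun j => v j ≠ v i).card := by exact_mod_cast h6
      linarith
    have := card_nsmul_le_sum (range p) (fun i => ∑ j ∈ range p, mean m (a i - a j)) _ h1
    rw [card_range, nsmul_eq_mul] at this
    exact this
  set R0 := ∑ j ∈ T, mean m (a j - a i0) with hR0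
  have hβ : 2 * ((T'.card : ℝ) * R0) ≤ ∑ i ∈ range p, ∑ j ∈ range p, mean m (a i - a j) := by
    have hT'v : ∀ i ∈ T', aeval η (a i) = aeval η (a i0) := by
      intro i hi
      rw [hT', mem_filter] at hi
      exact hi.2
    have e1 : ∑ i ∈ T', ∑ j ∈ T, mean m (a i - a j) = T'.card * R0 := by
      rw [hR0, ← nsmul_eq_mul, ← sum_const]
      refine sum_congr rfl fun i hi => sum_congr rfl fun j _ => ?_
      rw [mean_sub_comm]
      refine mean_congr hm _ _ hη ?_
      rw [map_sub, map_sub, hT'v i hi]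
    have e2 : ∑ i ∈ T, ∑ j ∈ T', mean m (a i - a j) = T'.card * R0 := by
      rw [sum_comm, hR0, ← nsmul_eq_mul, ← sum_const]
      refine sum_congr rfl fun i hi => sum_congr rfl fun j _ => ?_
      refine mean_congr hm _ _ hη ?_
      rw [map_sub, map_sub, hT'v i hi]
    have hsplit : ∀ g : ℕ → ℝ, ∑ i ∈ range p, g i = ∑ i ∈ T', g i + ∑ i ∈ T, g i := by
      intro g
      rw [hT, hT']
      exact (sum_filter_add_sum_filter_not _ _ _).symm
    rw [hsplit]
    have e3 : ∑ i ∈ T', ∑ j ∈ T, mean m (a i - a j) ≤ ∑ i ∈ T', ∑ j ∈ range p, mean m (a i - a j) :=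
      sum_le_sum fun i _ => sum_le_sum_of_subset_of_nonneg (filter_subset _ _)
        fun _ _ _ => mean_nonneg _ _
    have e4 : ∑ i ∈ T, ∑ j ∈ T', mean m (a i - a j) ≤ ∑ i ∈ T, ∑ j ∈ range p, mean m (a i - a j) :=
      sum_le_sum fun i _ => sum_le_sum_of_subset_of_nonneg (filter_subset _ _)
        fun _ _ _ => mean_nonneg _ _
    rw [e1] at e3
    rw [e2] at e4
    linarith
  have hpR : ((k : ℝ) + 1) ^ 2 + (k + 1) + 1 ≤ p := by exact_mod_cast hpk
  have hk0 : (0 : ℝ) ≤ k := Nat.cast_nonneg k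
  have hp1 : (1 : ℝ) < p := by exact_mod_cast hp.one_lt
  have hTp : (T'.card : ℝ) = p - T.card := by
    have : ((T'.card + T.card : ℕ) : ℝ) = p := by rw [hcardTT]
    push_cast at this
    linarith
  push_cast at hf
  have hX : T.card ≤ k + 1 := by
    have h1 : (p : ℝ) * T.card ≤ 2 * ((p - 1) * ((k + 1) / 2)) := by
      have : ((p : ℝ) - 1) * μ ≤ (p - 1) * ((k + 1) / 2) :=
        mul_le_mul_of_nonneg_left hf (by linarith)
      linarith
    have h2 : (p : ℝ) * T.card ≤ p * (k + 1) := by nlinarith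
    have h3 : (T.card : ℝ) ≤ k + 1 := le_of_mul_le_mul_left h2 (by linarith)
    exact_mod_cast h3
  have hXR : (T.card : ℝ) ≤ k + 1 := by exact_mod_cast hX
  have hβ' : ((p : ℝ) - T.card) * R0 ≤ (p - 1) * μ := by
    rw [hTp] at hβ
    linarith
  have hroot : ∀ i : ℕ, (w ^ i) ^ p = 1 := by
    intro i
    rw [← pow_mul, mul_comm, pow_mul, hw.pow_eq_one, one_pow]
  rcases Nat.lt_or_ge T.card 2 with h2 | h2
  · rcases Nat.lt_or_ge T.card 1 with h1 | h1
    · have : T = ∅ := card_eq_zero.mp (by omega)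
      rw [this, sum_empty]
      exact Len.zero _
    · have h1' : T.card = 1 := by omega
      rw [h1'] at hβ'
      obtain ⟨i, hi⟩ := card_eq_one.mp h1'
      rw [hi, sum_singleton]
      have h3 : R0 = mean m (a i - a i0) := by rw [hR0, hi, sum_singleton]
      rw [h3] at hβ'
      push_cast at hβ'
      have h4 : mean m (a i - a i0) ≤ μ := le_of_mul_le_mul_left hβ' (by linarith)
      refine (hL' _ ?_ _ hη).root_mul hp.pos (hroot i)
      push_cast
      linarith
  · have hlen : ∀ i ∈ T, Len L (w ^ i * aeval η (a i - a i0)) := by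
      intro i hi
      refine Len.root_mul (hL _ ?_ _ hη) hp.pos (hroot i)
      have h5 : mean m (a i - a i0) + ∑ j ∈ T.erase i, mean m (a j - a i0) = R0 :=
        add_sum_erase T (fun j => mean m (a j - a i0)) hi
      have h6 : ((T.erase i).card : ℝ) ≤ ∑ j ∈ T.erase i, mean m (a j - a i0) := by
        have := card_nsmul_le_sum (T.erase i) (fun j => mean m (a j - a i0)) 1
          (fun j hj => by
            have := mem_of_mem_erase hj
            rw [hT, mem_filter] at this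
            exact hone j i0 this.2)
        simpa using this
      rw [card_erase_of_mem hi] at h6
      have h7 : (1 : ℝ) ≤ ((T.card - 1 : ℕ) : ℝ) := by exact_mod_cast (by omega : 1 ≤ T.card - 1)
      have h8 : R0 ≤ (k + 1) / 2 + 1 / 2 := by
        have h9 : ((p : ℝ) - T.card) * R0 ≤ (p - 1) * ((k + 1) / 2) :=
          hβ'.trans (mul_le_mul_of_nonneg_left hf (by linarith))
        have h10 : ((p : ℝ) - 1) * ((k + 1) / 2) ≤ (p - T.card) * ((k + 1) / 2 + 1 / 2) := by
          nlinarith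
        exact le_of_mul_le_mul_left (h9.trans h10) (by nlinarith)
      linarith
    refine (Len.sum T L _ hlen).mono (le_trans ?_ hLL)
    exact Nat.mul_le_mul_right L hX

/-- A cyclotomic integer of bounded mean is a sum of boundedly many roots of unity. -/
theorem loxton (k : ℕ) : ∃ L, ∀ N, 0 < N → ∀ f : ℤ[X], mean N f ≤ (k : ℝ) / 2 →
    ∀ z, IsPrimitiveRoot z N → Len L (aeval z f) := by
  induction k with
  | zero =>
    refine ⟨0, fun N hN f hf z hz => ?_⟩
    rw [eq_zero_of_mean_lt hN f hz (by norm_num at hf; linarith)]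
    exact Len.zero 0
  | succ k ih =>
    obtain ⟨L, hL⟩ := ih
    set p0 := (k + 1) ^ 2 + (k + 1) + 1 with hp0
    set P := ∏ p ∈ (range p0).filter Nat.Prime, p with hP
    -- the finite case
    have hfin : (⋃ N ∈ Set.Icc 1 P, {x : ℂ | ∃ z, IsPrimitiveRoot z N ∧
        ∃ f : ℤ[X], mean N f ≤ ((k + 1 : ℕ) : ℝ) / 2 ∧ aeval z f = x}).Finite := by
      refine Set.Finite.biUnion (Set.finite_Icc 1 P) fun N hN => ?_
      exact finite_values (by have := hN.1; omega) _
    obtain ⟨L1, hL1⟩ : ∃ L1, ∀ N ∈ Set.Icc 1 P, ∀ z, IsPrimitiveRoot z N → ∀ f : ℤ[X],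
        mean N f ≤ ((k + 1 : ℕ) : ℝ) / 2 → Len L1 (aeval z f) := by
      have h1 : ∀ x : ℂ, ∃ n, (∃ n', Len n' x) → Len n x := by
        intro x
        by_cases h : ∃ n', Len n' x
        · obtain ⟨n, hn⟩ := h
          exact ⟨n, fun _ => hn⟩
        · exact ⟨0, fun h' => absurd h' h⟩
      choose n hn using h1
      refine ⟨hfin.toFinset.sup n, fun N hN z hz f hf => ?_⟩
      have hx : aeval z f ∈ hfin.toFinset := by
        rw [Set.Finite.mem_toFinset, Set.mem_iUnion₂]
        exact ⟨N, hN, z, hz, f, hf, rfl⟩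
      exact (hn _ (exists_len (by have := hN.1; omega) hz.pow_eq_one f)).mono (le_sup (f := n) hx)
    refine ⟨max L1 ((k + 1) * L), ?_⟩
    intro N
    induction N using Nat.strong_induction_on with
    | _ N ihN =>
      intro hN f hf z hz
      by_cases hsq : ∃ p, p.Prime ∧ p * p ∣ N
      · obtain ⟨p, hp, c, hc⟩ := hsq
        have hN' : N = p * (p * c) := by rw [hc, mul_assoc]
        have hc0 : 0 < c := by
          rcases Nat.eq_zero_or_pos c with h | h
          · rw [h, mul_zero] at hc; omega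
          · exact h
        have hm : 0 < p * c := Nat.mul_pos hp.pos hc0
        have hlt : p * c < N := by
          rw [hN']
          exact (Nat.lt_mul_iff_one_lt_left hm).mpr hp.one_lt
        rw [hN'] at hz hf
        exact case_dvd hp hm (dvd_mul_right p c) (hL _ hm) (ihN _ hlt hm) (le_max_right _ _) f hf z hz
      · push Not at hsq
        by_cases hbig : ∃ p, p.Prime ∧ p ∣ N ∧ p0 ≤ p
        · obtain ⟨p, hp, ⟨c, hc⟩, hpp⟩ := hbig
          have hc0 : 0 < c := by
            rcases Nat.eq_zero_or_pos c with h | h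
            · rw [h, mul_zero] at hc; omega
            · exact h
          have hlt : c < N := by
            rw [hc]
            exact (Nat.lt_mul_iff_one_lt_left hc0).mpr hp.one_lt
          have hcop : p.Coprime c := by
            rw [hp.coprime_iff_not_dvd]
            rintro ⟨d, hd⟩
            exact hsq p hp ⟨d, by rw [hc, hd, mul_assoc]⟩
          rw [hc] at hz hf
          exact case_coprime hp hc0 hcop hpp (hL _ hc0) (ihN _ hlt hc0) (le_max_right _ _) f hf z hz
        · push Not at hbig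
          have hsqf : Squarefree N := by
            rw [Nat.squarefree_iff_prime_squarefree]
            intro p hp h
            exact hsq p hp h
          have hNP : N ≤ P := by
            rw [← Nat.prod_primeFactors_of_squarefree hsqf, hP]
            apply Nat.le_of_dvd
            · exact prod_pos fun p hp => (mem_filter.mp hp).2.pos
            · apply prod_dvd_prod_of_subset
              intro p hp
              rw [mem_filter, mem_range]
              exact ⟨hbig p (Nat.prime_of_mem_primeFactors hp) (Nat.dvd_of_mem_primeFactors hp),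
                Nat.prime_of_mem_primeFactors hp⟩
          exact (hL1 N ⟨hN, hNP⟩ z hz f hf).mono (le_max_left _ _)

end Pool.Agent.Helper781.CycHouse
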